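import Pool.Agent.X37.PL.Fund

/-!
# Palindromes with prescribed outer digits and prescribed middle digit
-/

set_option autoImplicit false

namespace Pool.Agent.X37.PL

open Finset Pool.Agent.Y816.PS
open Pool.Agent.H373R2.T7 (nuB)

/-- the palindromes with `2 N + 1` digits, `N - L` leading digits as for `x`, middle digit `e` -/
def PalS (b N L x e : ℕ) : Finset ℕ := (range (b ^ (2 * N + 1))).filter (fun n => b ^ (2 * N) ≤ n ∧
  (Nat.digits b n).reverse = Nat.digits b n ∧ n / b ^ (N + L + 1) = x / b ^ (N + L + 1) ∧ n / b ^ N % b = e)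

lemma PalS_eq {b N L x e : ℕ} (hb : 2 ≤ b) (hN : L + 1 ≤ N) (h1 : b ^ (2 * N) ≤ x) (h2 : x < b ^ (2 * N + 1))
    (he : e < b) : PalS b N L x e = (univ : Finset (Fin L → Fin b × Fin 1)).image (VE b N L x e) := by
  ext n
  unfold PalS
  rw [mem_filter, mem_range, mem_image]
  constructor
  · rintro ⟨g1, g2, g3, g4, g5⟩
    have := VE_surj (x := x) hb g2 g1 g3 g4
    rw [g5] at this
    exact ⟨_, mem_univ _, this.symm⟩
  · rintro ⟨m, -, rfl⟩
    have ha := ae_lt hb N L x he m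
    have h0 := ae_top hb hN h2 h1 m (e := e)
    have hout : VE b N L x e m / b ^ (N + L + 1) = x / b ^ (N + L + 1) :=
      pal_div hb hN h2 ha (fun j hj => ae_out m hj)
    refine ⟨sum_lt (fun i => ha _) (2 * N + 1), ?_, pal_reverse hb ha h0, hout, ?_⟩
    · have h3 : b ^ (N - L - 1) ≤ x / b ^ (N + L + 1) := by
        rw [Nat.le_div_iff_mul_le (by positivity), ← pow_add, show N - L - 1 + (N + L + 1) = 2 * N by omega]
        exact h1
      rw [← hout] at h3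
      calc b ^ (2 * N) = b ^ (N - L - 1) * b ^ (N + L + 1) := by
            rw [← pow_add]; congr 1; omega
        _ ≤ (VE b N L x e m / b ^ (N + L + 1)) * b ^ (N + L + 1) := Nat.mul_le_mul_right _ h3
        _ ≤ _ := Nat.div_mul_le_self _ _
    · have := pal_mid (N := N) hb ha h0
      rw [show ae b N L x e m 0 = e by simp [ae]] at this
      exact this

lemma PalS_class {b N L x e : ℕ} (hb : 2 ≤ b) (hN : L + 1 ≤ N) (h1 : b ^ (2 * N) ≤ x) (h2 : x < b ^ (2 * N + 1))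
    (he : e < b) (q h : ℕ) (hq : q.Coprime (2 * b)) :
    |(((PalS b N L x e).filter (fun n => n % q = h % q)).card : ℝ) - (b : ℝ) ^ L / q| ≤ er b L q := by
  rw [PalS_eq hb hN h1 h2 he]
  exact VE_class (x := x) e hb hN q h hq

/-- residue classes -/
lemma nuB_Omega (Ω : ℕ → Finset ℕ) (p : ℕ) (h : Ω p ⊆ range p) : nuB (fun p n => n % p ∈ Ω p) p = (Ω p).card := by
  classical
  unfold nuB
  congr 1
  ext r
  simp only [mem_filter, mem_range]
  constructor
  · rintro ⟨h1, h2⟩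
    rwa [Nat.mod_eq_of_lt h1] at h2
  · intro h1
    have h2 := mem_range.1 (h h1)
    refine ⟨h2, ?_⟩
    rwa [Nat.mod_eq_of_lt h2]

/-- **the fundamental lemma for palindromes** -/
theorem fund_pal {b : ℕ} (hb : 2 ≤ b) (κ : ℕ) (η : ℝ) (hη : 0 < η) :
    ∃ u c : ℝ, 0 < u ∧ 0 < c ∧ ∃ L0 : ℕ, ∀ L N x e : ℕ, L0 ≤ L → L < N → b ^ (2 * N) ≤ x → x < b ^ (2 * N + 1) →
      e < b → ∀ M r : ℕ, 0 < M → M.Coprime (2 * b) → (M : ℝ) ≤ Real.exp (c * Real.sqrt L) →
      ∀ Ω : ℕ → Finset ℕ, (∀ p : ℕ, p.Prime → ¬ p ∣ 2 * b → Ω p ⊆ range p ∧ (Ω p).card ≤ κ ∧ (Ω p).card < p) →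
      ∀ z : ℕ, (z : ℝ) ≤ (b : ℝ) ^ (u * L) →
        |(((PalS b N L x e).filter (fun n => n % M = r % M ∧ ∀ p ∈ PR b M z, n % p ∉ Ω p)).card : ℝ) -
          (b : ℝ) ^ L / M * ∏ p ∈ PR b M z, (1 - ((Ω p).card : ℝ) / p)| ≤
        η * ((b : ℝ) ^ L / M * ∏ p ∈ PR b M z, (1 - ((Ω p).card : ℝ) / p)) := by
  classical
  obtain ⟨u, c, hu, hc, L0, h⟩ := fund hb κ η hη
  refine ⟨u, c, hu, hc, L0, ?_⟩
  intro L N x e hL hN h1 h2 he M r hM hMb hMc Ω hΩ z hz
  have h3 := h L hL (PalS b N L x e) (fun q h hq => by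
      have := PalS_class hb hN h1 h2 he q h hq
      convert this) M r hM hMb hMc (fun p n => n % p ∈ Ω p)
    (fun p n => by rw [Nat.mod_mod]) (fun p hp hpb => by
      obtain ⟨g1, g2, g3⟩ := hΩ p hp hpb
      rw [nuB_Omega Ω p g1]
      exact ⟨g2, g3⟩) z hz
  have h4 : ∏ l ∈ PR b M z, (1 - (nuB (fun p n => n % p ∈ Ω p) l : ℝ) / l) =
      ∏ p ∈ PR b M z, (1 - ((Ω p).card : ℝ) / p) := by
    apply prod_congr rfl
    intro p hp
    unfold PR at hp
    rw [mem_filter] at hp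
    rw [nuB_Omega Ω p (hΩ p hp.2.1 (fun h => hp.2.2 (h.mul_right _))).1]
  rw [h4] at h3
  convert h3

end Pool.Agent.X37.PL
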