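import Pool.Agent.Y816.PS.I

/-!
# Palindromes with free inner digits: exponentially small average of the exponential sums
-/

set_option autoImplicit false

namespace Pool.Agent.X37.PL

open Finset Filter Topology Pool.Agent.Helper112 Pool.Agent.W89.PW Pool.Agent.W261.PWBV
open Pool.Agent.H39R3.PB (ph pts)
open Pool.Agent.H885R3.PBT7 (cover)
open Pool.Agent.W139.PX

/-- dyadic block -/
lemma blockw (b L Q : ℕ) (hQ : 1 ≤ Q) (d : ℝ) (hd : 0 ≤ d) :
    ∑ q ∈ (Ico Q (2 * Q)).filter (fun q => q.Coprime (2 * b)),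
      (q : ℝ) ^ d * U b b 1 L q / q ≤ (2 * Q : ℝ) ^ d / Q * pts b Q (Fw b b 1 L L) := by
  unfold pts
  rw [mul_sum]
  apply sum_le_sum
  intro q hq
  rw [mem_filter, mem_Ico] at hq
  obtain ⟨⟨h1, h2⟩, h3⟩ := hq
  have hQ0 : (0 : ℝ) < Q := by exact_mod_cast hQ
  have hq0 : (0 : ℝ) < q := by exact_mod_cast (show 0 < q by omega)
  have hU := U_nonneg b b 1 L q
  have e1 : (q : ℝ) ^ d ≤ (2 * Q : ℝ) ^ d := by
    apply Real.rpow_le_rpow hq0.le _ hd
    exact_mod_cast h2.le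
  have e2 : (1 : ℝ) / q ≤ 1 / Q := by
    apply one_div_le_one_div_of_le hQ0
    exact_mod_cast h1
  calc (q : ℝ) ^ d * U b b 1 L q / q = (q : ℝ) ^ d * U b b 1 L q * (1 / q) := by ring
    _ ≤ (2 * Q : ℝ) ^ d * U b b 1 L q * (1 / Q) := by
        apply mul_le_mul (mul_le_mul_of_nonneg_right e1 hU) e2 (by positivity)
        exact mul_nonneg (by positivity) hU
    _ = (2 * Q : ℝ) ^ d / Q * U b b 1 L q := by ring

/-- the small range: a dyadic block -/
lemma blocks (b : ℕ) (hb : 2 ≤ b) (κ : ℝ) (h1 : κ < 1)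
    (hp : ∀ q h a L : ℕ, 1 < q → q.Coprime (2 * b) → a.Coprime q →
      q < b ^ h → Fw b b 1 L L ((a : ℝ) / q) ≤ (1 - κ) ^ (L / (2 * h + 2)))
    (L j : ℕ) (hj : 1 ≤ j) (d : ℝ) (hd : 0 ≤ d) (hd1 : d ≤ 1) :
    ∑ q ∈ (Ico (2 ^ j : ℕ) (2 * 2 ^ j)).filter (fun q => q.Coprime (2 * b)),
      (q : ℝ) ^ d * U b b 1 L q / q ≤ (2 : ℝ) ^ (2 * j + 1) * (1 - κ) ^ (L / (2 * j + 4)) := by
  have hk : 0 < 1 - κ := by linarith
  set E : ℝ := (1 - κ) ^ (L / (2 * j + 4)) with hE
  have hE0 : 0 < E := by positivity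
  have hterm : ∀ q ∈ (Ico (2 ^ j : ℕ) (2 * 2 ^ j)).filter (fun q => q.Coprime (2 * b)),
      (q : ℝ) ^ d * U b b 1 L q / q ≤ (2 * 2 ^ j) * E := by
    intro q hq
    rw [mem_filter, mem_Ico] at hq
    obtain ⟨⟨h2, h3⟩, h4⟩ := hq
    have h2j : 2 ^ 1 ≤ 2 ^ j := Nat.pow_le_pow_right (by norm_num) hj
    have hq1 : 1 < q := by omega
    have hq0 : (0 : ℝ) < q := by exact_mod_cast (show 0 < q by omega)
    have hq1r : (1 : ℝ) ≤ q := by exact_mod_cast hq1.le
    have hq10 : q < b ^ (j + 1) := by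
      calc q < 2 * 2 ^ j := h3
        _ = 2 ^ (j + 1) := by ring
        _ ≤ b ^ (j + 1) := Nat.pow_le_pow_left hb _
    have hU : U b b 1 L q ≤ q * E := by
      unfold U
      calc ∑ a ∈ (range q).filter (fun a => a.Coprime q), Fw b b 1 L L ((a : ℝ) / q)
          ≤ ∑ a ∈ (range q).filter (fun a => a.Coprime q), E := by
            apply sum_le_sum
            intro a ha
            rw [mem_filter] at ha
            have := hp q (j + 1) a L hq1 h4 ha.2 hq10
            have e : 2 * (j + 1) + 2 = 2 * j + 4 := by ring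
            rw [e] at this
            exact this
        _ = (((range q).filter (fun a => a.Coprime q)).card : ℝ) * E := by
            rw [sum_const, nsmul_eq_mul]
        _ ≤ q * E := by
            apply mul_le_mul_of_nonneg_right _ hE0.le
            have := card_filter_le (range q) (fun a => a.Coprime q)
            rw [card_range] at this
            exact_mod_cast this
    have hqd : (q : ℝ) ^ d ≤ q := by
      calc (q : ℝ) ^ d ≤ (q : ℝ) ^ (1 : ℝ) := Real.rpow_le_rpow_of_exponent_le hq1r hd1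
        _ = q := Real.rpow_one _
    have hq2 : (q : ℝ) ≤ 2 * 2 ^ j := by exact_mod_cast h3.le
    rw [div_le_iff₀ hq0]
    calc (q : ℝ) ^ d * U b b 1 L q ≤ q * (q * E) := mul_le_mul hqd hU (U_nonneg b b 1 L q) hq0.le
      _ = q * E * q := by ring
      _ ≤ 2 * 2 ^ j * E * q := by gcongr
  calc _ ≤ ∑ q ∈ (Ico (2 ^ j : ℕ) (2 * 2 ^ j)).filter (fun q => q.Coprime (2 * b)),
        ((2 * 2 ^ j) * E : ℝ) := sum_le_sum hterm
    _ = (((Ico (2 ^ j : ℕ) (2 * 2 ^ j)).filter (fun q => q.Coprime (2 * b))).card : ℝ)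
        * ((2 * 2 ^ j) * E) := by rw [sum_const, nsmul_eq_mul]
    _ ≤ 2 ^ j * ((2 * 2 ^ j) * E) := by
        apply mul_le_mul_of_nonneg_right _ (by positivity)
        have := card_filter_le (Ico (2 ^ j) (2 * 2 ^ j)) (fun q => q.Coprime (2 * b))
        rw [Nat.card_Ico] at this
        have e : 2 * 2 ^ j - 2 ^ j = 2 ^ j := by omega
        rw [e] at this
        exact_mod_cast this
    _ = (2 : ℝ) ^ (2 * j + 1) * E := by ring

/-- the elementary estimate of the small range -/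
lemma smallr (κ : ℝ) (h0 : 0 < κ) (h1 : κ < 1) : ∀ᶠ L : ℕ in atTop, ∀ j : ℕ, (j : ℝ) ≤ κ / 8 * Real.sqrt L →
    (2 : ℝ) ^ (2 * j + 1) * (1 - κ) ^ (L / (2 * j + 4)) ≤ 2 / (1 - κ) * Real.exp (-(1 / 2 * Real.sqrt L)) := by
  have hlim : Tendsto (fun L : ℕ => Real.sqrt L) atTop atTop :=
    Real.tendsto_sqrt_atTop.comp tendsto_natCast_atTop_atTop
  filter_upwards [hlim.eventually_ge_atTop (16 / κ), eventually_ge_atTop 1] with L hL hL1
  intro j hj
  obtain ⟨s, hs⟩ : ∃ s : ℝ, s = Real.sqrt L := ⟨_, rfl⟩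
  rw [← hs] at hL hj ⊢
  have hLr : (1 : ℝ) ≤ L := by exact_mod_cast hL1
  have hss : s * s = L := by rw [hs]; exact Real.mul_self_sqrt (by linarith)
  have hs0 : 0 < s := by
    have : 0 < 16 / κ := by positivity
    linarith
  have hκs : 16 ≤ κ * s := by
    rw [div_le_iff₀ h0] at hL
    linarith
  have hk : 0 < 1 - κ := by linarith
  -- the exponent
  have hden : (2 * (j : ℝ) + 4) ≤ κ / 2 * s := by nlinarith
  have hden0 : (0 : ℝ) < 2 * (j : ℝ) + 4 := by positivity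
  have hfl : 2 * s / κ - 1 ≤ ((L / (2 * j + 4) : ℕ) : ℝ) := by
    have h2 : (L : ℝ) / (2 * j + 4) < ((L / (2 * j + 4) : ℕ) : ℝ) + 1 := by
      have h3 := Nat.lt_div_mul_add (a := L) (b := 2 * j + 4) (by omega)
      rw [div_lt_iff₀ hden0]
      have h4 : (L : ℝ) < ((L / (2 * j + 4) * (2 * j + 4) + (2 * j + 4) : ℕ) : ℝ) := by exact_mod_cast h3
      push_cast at h4
      linarith
    have h3 : 2 * s / κ ≤ (L : ℝ) / (2 * j + 4) := by
      rw [div_le_div_iff₀ h0 hden0, ← hss]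
      nlinarith
    linarith
  have h2 : (1 - κ) ^ (L / (2 * j + 4)) ≤ 1 / (1 - κ) * Real.exp (-(2 * s)) := by
    have h3 : (1 - κ) ^ (L / (2 * j + 4)) ≤ Real.exp (-κ * ((L / (2 * j + 4) : ℕ) : ℝ)) := by
      have h4 : 1 - κ ≤ Real.exp (-κ) := by
        have := Real.add_one_le_exp (-κ)
        linarith
      calc (1 - κ) ^ (L / (2 * j + 4)) ≤ (Real.exp (-κ)) ^ (L / (2 * j + 4)) := pow_le_pow_left₀ hk.le h4 _
        _ = _ := by rw [← Real.exp_nat_mul]; congr 1; ring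
    refine h3.trans ?_
    have h5 : Real.exp (-κ * ((L / (2 * j + 4) : ℕ) : ℝ)) ≤ Real.exp (κ - 2 * s) := by
      apply Real.exp_le_exp.2
      have h6 : κ * (2 * s / κ - 1) ≤ κ * ((L / (2 * j + 4) : ℕ) : ℝ) := mul_le_mul_of_nonneg_left hfl h0.le
      have h7 : κ * (2 * s / κ - 1) = 2 * s - κ := by field_simp
      linarith
    refine h5.trans ?_
    rw [sub_eq_add_neg, Real.exp_add]
    apply mul_le_mul_of_nonneg_right _ (Real.exp_pos _).le
    rw [le_div_iff₀ hk]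
    have h8 : 1 - κ ≤ Real.exp (-κ) := by
      have := Real.add_one_le_exp (-κ)
      linarith
    calc Real.exp κ * (1 - κ) ≤ Real.exp κ * Real.exp (-κ) := mul_le_mul_of_nonneg_left h8 (Real.exp_pos _).le
      _ = 1 := by rw [← Real.exp_add]; simp
  have h9 : (2 : ℝ) ^ (2 * j + 1) ≤ 2 * Real.exp (s) := by
    have h10 : (2 : ℝ) ≤ Real.exp 1 := by
      have := Real.add_one_le_exp (1 : ℝ)
      linarith
    have h11 : (2 : ℝ) ^ (2 * j) ≤ Real.exp s := by
      calc (2 : ℝ) ^ (2 * j) ≤ (Real.exp 1) ^ (2 * j) := pow_le_pow_left₀ (by norm_num) h10 _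
        _ = Real.exp (2 * j : ℕ) := by rw [← Real.exp_nat_mul]; congr 1; ring
        _ ≤ Real.exp s := by
            apply Real.exp_le_exp.2
            push_cast
            nlinarith
    rw [pow_succ]
    linarith
  calc (2 : ℝ) ^ (2 * j + 1) * (1 - κ) ^ (L / (2 * j + 4))
      ≤ (2 * Real.exp s) * (1 / (1 - κ) * Real.exp (-(2 * s))) := by
        apply mul_le_mul h9 h2 (by positivity) (by positivity)
    _ = 2 / (1 - κ) * Real.exp (-s) := by
        have : Real.exp s * Real.exp (-(2 * s)) = Real.exp (-s) := by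
          rw [← Real.exp_add]; congr 1; ring
        calc _ = 2 / (1 - κ) * (Real.exp s * Real.exp (-(2 * s))) := by ring
          _ = _ := by rw [this]
    _ ≤ _ := by
        apply mul_le_mul_of_nonneg_left _ (by positivity)
        apply Real.exp_le_exp.2
        linarith

/-- **the average of the exponential sums is exponentially small** -/
theorem Usum {b : ℕ} (hb : 2 ≤ b) (hP : PtW b b 1) {κ : ℝ} (hκ1 : κ < 1) (hB : BigW b b 1 κ) :
    ∃ d c : ℝ, 0 < d ∧ d ≤ 1 ∧ 0 < c ∧ ∀ᶠ L : ℕ in atTop,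
      ∑ q ∈ (Icc 2 ⌊(b : ℝ) ^ (κ * L)⌋₊).filter (fun q => q.Coprime (2 * b)),
        (q : ℝ) ^ d * U b b 1 L q / q ≤ Real.exp (-(c * Real.sqrt L)) := by
  obtain ⟨κ', hκ0, hκ1', hp⟩ := hP
  obtain ⟨C, δ, hC, hδ, hδ1, big⟩ := hB
  have hl2 : 0 < Real.log 2 := Real.log_pos (by norm_num)
  have hbR : (2 : ℝ) ≤ b := by exact_mod_cast hb
  have hb0 : (0 : ℝ) < b := by linarith
  obtain ⟨c2, hc2⟩ : ∃ c2 : ℝ, c2 = min (1 / 2) (δ / 2 * Real.log 2 * (κ' / 8)) := ⟨_, rfl⟩
  have hc2p : 0 < c2 := by rw [hc2]; exact lt_min (by norm_num) (by positivity)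
  have hc2a : c2 ≤ 1 / 2 := by rw [hc2]; exact min_le_left _ _
  have hc2b : c2 ≤ δ / 2 * Real.log 2 * (κ' / 8) := by rw [hc2]; exact min_le_right _ _
  obtain ⟨C3, hC3⟩ : ∃ C3 : ℝ, C3 = max (2 / (1 - κ')) (2 * C) := ⟨_, rfl⟩
  have hk : 0 < 1 - κ' := by linarith
  have hC3p : 0 < C3 := by rw [hC3]; exact lt_max_of_lt_right (by positivity)
  have hdec := Pool.Agent.H760R2.PalT7.dec (c2 / 2) (C3 * (2 * b)) (by positivity) (by positivity) 1
  have hev : ∀ᶠ L : ℕ in atTop, 1 ≤ L := eventually_ge_atTop 1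
  refine ⟨δ / 2, c2 / 2, by positivity, by linarith, by positivity, ?_⟩
  filter_upwards [smallr κ' hκ0 hκ1', hdec, hev] with L hs hd hL1
  have hLr : (1 : ℝ) ≤ L := by exact_mod_cast hL1
  set D : ℕ := ⌊(b : ℝ) ^ (κ * L)⌋₊ with hD
  have hg : ∀ q : ℕ, 0 ≤ (q : ℝ) ^ (δ / 2) * U b b 1 L q / q := fun q =>
    div_nonneg (mul_nonneg (by positivity) (U_nonneg b b 1 L q)) (Nat.cast_nonneg q)
  refine (cover (2 * b) D _ hg).trans ?_
  have hDr : (D : ℝ) ≤ (b : ℝ) ^ (κ * L) := Nat.floor_le (by positivity)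
  have hterm : ∀ j ∈ Icc 1 (Nat.log 2 D),
      ∑ q ∈ (Ico (2 ^ j : ℕ) (2 * 2 ^ j)).filter (fun q => q.Coprime (2 * b)),
        (q : ℝ) ^ (δ / 2) * U b b 1 L q / q ≤ C3 * Real.exp (-(c2 * Real.sqrt L)) := by
    intro j hj
    rw [mem_Icc] at hj
    have hD0 : D ≠ 0 := by
      intro h0
      rw [h0] at hj
      simp at hj
      omega
    have hjD : (2 : ℝ) ^ j ≤ (b : ℝ) ^ (κ * L) := by
      have e1 : 2 ^ j ≤ D :=
        (Nat.pow_le_pow_right (by norm_num) hj.2).trans (Nat.pow_log_le_self 2 hD0)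
      have e2 : (2 : ℝ) ^ j ≤ D := by exact_mod_cast e1
      exact e2.trans hDr
    rcases le_or_gt (j : ℝ) (κ' / 8 * Real.sqrt L) with h | h
    · refine (blocks b hb κ' hκ1' hp L j hj.1 (δ / 2) (by positivity) (by linarith)).trans ((hs j h).trans ?_)
      apply mul_le_mul _ _ (Real.exp_pos _).le hC3p.le
      · rw [hC3]; exact le_max_left _ _
      · apply Real.exp_le_exp.2
        have := Real.sqrt_nonneg (L : ℝ)
        nlinarith
    · set Q : ℕ := 2 ^ j with hQ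
      have hQ1 : 1 ≤ Q := Nat.one_le_two_pow
      have hQ0 : (0 : ℝ) < Q := by exact_mod_cast hQ1
      have hQr : (Q : ℝ) = 2 ^ j := by rw [hQ]; push_cast; ring
      have hpts := big L Q hQ1 (by rw [hQr]; exact hjD)
      have hbl := blockw b L Q hQ1 (δ / 2) (by positivity)
      refine hbl.trans ?_
      have hpos : 0 ≤ (2 * Q : ℝ) ^ (δ / 2) / Q := by positivity
      refine (mul_le_mul_of_nonneg_left hpts hpos).trans ?_
      have h1 : (2 * Q : ℝ) ^ (δ / 2) / Q * (C * (Q : ℝ) ^ (1 - δ)) =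
          2 ^ (δ / 2) * C * (Q : ℝ) ^ (-(δ / 2)) := by
        have h2 : (Q : ℝ) ^ (δ / 2) * (Q : ℝ) ^ (1 - δ) = (Q : ℝ) ^ (-(δ / 2)) * Q := by
          rw [← Real.rpow_add hQ0, ← Real.rpow_add_one hQ0.ne']
          congr 1
          ring
        rw [Real.mul_rpow (by norm_num) hQ0.le]
        calc (2 ^ (δ / 2) * (Q : ℝ) ^ (δ / 2)) / Q * (C * (Q : ℝ) ^ (1 - δ))
            = 2 ^ (δ / 2) * C * ((Q : ℝ) ^ (δ / 2) * (Q : ℝ) ^ (1 - δ)) / Q := by ring
          _ = 2 ^ (δ / 2) * C * ((Q : ℝ) ^ (-(δ / 2)) * Q) / Q := by rw [h2]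
          _ = _ := by field_simp
      rw [h1]
      have h2a : (2 : ℝ) ^ (δ / 2) ≤ 2 := by
        calc (2 : ℝ) ^ (δ / 2) ≤ (2 : ℝ) ^ (1 : ℝ) := Real.rpow_le_rpow_of_exponent_le (by norm_num) (by linarith)
          _ = 2 := Real.rpow_one _
      have h3 : (Q : ℝ) ^ (-(δ / 2)) = Real.exp (-(δ / 2 * Real.log 2 * j)) := by
        rw [Real.rpow_def_of_pos hQ0, hQr, Real.log_pow]
        congr 1
        ring
      rw [h3]
      apply mul_le_mul _ _ (Real.exp_pos _).le hC3p.le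
      · rw [hC3]
        refine le_trans ?_ (le_max_right _ _)
        nlinarith
      · apply Real.exp_le_exp.2
        have h4 : δ / 2 * Real.log 2 * (κ' / 8 * Real.sqrt L) ≤ δ / 2 * Real.log 2 * j :=
          mul_le_mul_of_nonneg_left h.le (by positivity)
        have h5 : c2 * Real.sqrt L ≤ δ / 2 * Real.log 2 * (κ' / 8) * Real.sqrt L :=
          mul_le_mul_of_nonneg_right hc2b (Real.sqrt_nonneg _)
        linarith
  refine (sum_le_sum hterm).trans ?_
  rw [sum_const, nsmul_eq_mul, Nat.card_Icc, Nat.add_sub_cancel]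
  have hlog : (Nat.log 2 D : ℝ) ≤ L * (2 * b) := by
    rcases Nat.eq_zero_or_pos D with h0 | h0
    · rw [h0]
      simp only [Nat.log_zero_right, Nat.cast_zero]
      positivity
    have e1 : 2 ^ Nat.log 2 D ≤ D := Nat.pow_log_le_self 2 h0.ne'
    have e2 : (2 : ℝ) ^ Nat.log 2 D ≤ (b : ℝ) ^ (κ * L) := by
      have : (2 : ℝ) ^ Nat.log 2 D ≤ D := by exact_mod_cast e1
      exact this.trans hDr
    have e3 := Real.log_le_log (by positivity) e2
    rw [Real.log_pow, Real.log_rpow (by linarith)] at e3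
    have hl2' : 1 / 2 ≤ Real.log 2 := by
      have := Real.log_two_gt_d9
      linarith
    have hlb : Real.log b ≤ b := (Real.log_le_sub_one_of_pos hb0).trans (by linarith)
    have hlb0 : 0 ≤ Real.log b := Real.log_nonneg (by linarith)
    have e5 : κ * L * Real.log b ≤ 1 * L * b := by
      calc κ * L * Real.log b ≤ 1 * L * Real.log b := by
            apply mul_le_mul_of_nonneg_right _ hlb0
            apply mul_le_mul_of_nonneg_right hκ1.le (by linarith)
        _ ≤ 1 * L * b := mul_le_mul_of_nonneg_left hlb (by linarith)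
    have e6 : 1 * (L : ℝ) * b ≤ L * (2 * b) * Real.log 2 := by
      have : 0 ≤ (L : ℝ) * b := by positivity
      nlinarith
    exact le_of_mul_le_mul_right (e3.trans (e5.trans e6)) (by linarith)
  have hexp : Real.exp (-(c2 * Real.sqrt L)) = Real.exp (-(c2 / 2 * Real.sqrt L)) * Real.exp (-(c2 / 2 * Real.sqrt L)) := by
    rw [← Real.exp_add]; congr 1; ring
  have hd' : C3 * (2 * b) * Real.exp (-(c2 / 2 * Real.sqrt L)) * L ≤ 1 := by
    rw [pow_one, le_div_iff₀ (by linarith)] at hd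
    exact hd
  calc (Nat.log 2 D : ℝ) * (C3 * Real.exp (-(c2 * Real.sqrt L)))
      ≤ L * (2 * b) * (C3 * Real.exp (-(c2 * Real.sqrt L))) := by
        apply mul_le_mul_of_nonneg_right hlog
        have := Real.exp_pos (-(c2 * Real.sqrt L))
        positivity
    _ = (C3 * (2 * b) * Real.exp (-(c2 / 2 * Real.sqrt L)) * L) * Real.exp (-(c2 / 2 * Real.sqrt L)) := by
        rw [hexp]; ring
    _ ≤ 1 * Real.exp (-(c2 / 2 * Real.sqrt L)) := mul_le_mul_of_nonneg_right hd' (Real.exp_pos _).le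
    _ = _ := one_mul _

end Pool.Agent.X37.PL
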