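import Pool.Agent.X37.PL.Sum
import Pool.Agent.H20R2.EN.FLem

/-!
# The fundamental lemma for palindromes with free inner digits
-/

set_option autoImplicit false

namespace Pool.Agent.X37.PL

open Finset Filter Topology Pool.Agent.Helper112 Pool.Agent.W89.PW Pool.Agent.W261.PWBV
open Pool.Agent.Y816.PS (er er_nonneg)
open Pool.Agent.H373R2.T7 (nuB)
open Pool.Agent.W139.PX

lemma exists_J (z : ℕ) : ∃ J : ℕ, z ≤ 2 ^ 2 ^ J ∧ 2 ^ 2 ^ J ≤ 2 * (z + 1) ^ 2 := by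
  classical
  have hex : ∃ J : ℕ, z ≤ 2 ^ 2 ^ J := by
    refine ⟨z, ?_⟩
    have h1 : z < 2 ^ z := Nat.lt_two_pow_self
    calc z ≤ 2 ^ z := h1.le
      _ ≤ 2 ^ 2 ^ z := Nat.pow_le_pow_right (by norm_num) h1.le
  refine ⟨Nat.find hex, Nat.find_spec hex, ?_⟩
  rcases Nat.eq_zero_or_pos (Nat.find hex) with h0 | h0
  · rw [h0]
    have : 1 ≤ (z + 1) ^ 2 := Nat.one_le_pow _ _ (by omega)
    simpa using this
  · have h1 := Nat.find_min hex (m := Nat.find hex - 1) (by omega)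
    push Not at h1
    have h2 : 2 ^ 2 ^ (Nat.find hex) = (2 ^ 2 ^ (Nat.find hex - 1)) ^ 2 := by
      rw [← pow_mul, ← pow_succ]
      congr 2
      omega
    rw [h2]
    calc (2 ^ 2 ^ (Nat.find hex - 1)) ^ 2 ≤ (z + 1) ^ 2 := Nat.pow_le_pow_left (by omega) 2
      _ ≤ 2 * (z + 1) ^ 2 := by omega

/-- the primes up to `z` that do not divide `2 b M` -/
def PR (b M z : ℕ) : Finset ℕ := (Icc 1 z).filter (fun l => l.Prime ∧ ¬ l ∣ 2 * b * M)

lemma level {b : ℕ} (hb : 2 ≤ b) : PtW b b 1 ∧ BigW b b 1 (49 / 100) := by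
  have hbR : (2 : ℝ) ≤ b := by exact_mod_cast hb
  have hb0 : (0 : ℝ) < b := by linarith
  set H : ℝ := Real.sqrt (1 / b) with hH
  have hH0 : 0 < H := Real.sqrt_pos.2 (by positivity)
  have hH2 : H ^ 2 = 1 / b := Real.sq_sqrt (by positivity)
  have hb1 : 1 / (b : ℝ) ≤ 1 := by
    rw [div_le_one hb0]
    linarith
  have hH1 : H ≤ 1 := by
    by_contra hcon
    push Not at hcon
    have h1 : 1 < H ^ 2 := one_lt_pow₀ hcon two_ne_zero
    linarith
  have hHb : 1 ≤ b * H := by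
    have h1 : (b : ℝ) * H ^ 2 = 1 := by
      rw [hH2]
      field_simp
    have h2 : H ^ 2 ≤ H := by nlinarith
    have h3 : (b : ℝ) * H ^ 2 ≤ b * H := mul_le_mul_of_nonneg_left h2 hb0.le
    linarith
  have hMaj : MajP b b 1 H (1 / H ^ 3) := majP_alt hb (by omega) le_rfl le_rfl (by omega) hH0 hH1 (by
    rw [hH2, Nat.cast_one, mul_one])
  have hκ : (b : ℝ) ^ (49 / 100 : ℝ) * H < 1 := by
    rw [hH, Real.sqrt_eq_rpow, one_div, Real.inv_rpow hb0.le]
    rw [← div_eq_mul_inv, div_lt_one (by positivity)]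
    exact Real.rpow_lt_rpow_of_exponent_lt (by linarith) (by norm_num)
  exact ⟨Pool.Agent.W571.PW.Pt.main b b 1 hb hb le_rfl rfl,
    bigW_of_majP hb (by omega) le_rfl rfl (m4_unif hb) hMaj hH0 hHb (by positivity) (by norm_num) hκ⟩

open Classical in
/-- the local densities of the auxiliary conditions -/
lemma nuB_mix (Q : ℕ → ℕ → Prop) (T0 : Finset ℕ) (l : ℕ) :
    nuB (fun l n => if l ∈ T0 then ¬ Q l n else Q l n) l = if l ∈ T0 then l - nuB Q l else nuB Q l := by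
  unfold nuB
  by_cases h : l ∈ T0
  · simp only [h, if_true]
    have h1 := card_filter_add_card_filter_not (s := range l) (p := fun r => Q l r)
    rw [card_range] at h1
    omega
  · simp only [h, if_false]

/-- lower bound for the product over the large primes -/
lemma prod_low (κ J : ℕ) (C2 : ℝ) (hC2 : 1 ≤ C2) (P : Finset ℕ) (hP : ∀ p ∈ P, 2 * κ < p) (g : ℕ → ℝ)
    (hg0 : ∀ p ∈ P, 0 ≤ g p) (hg : ∀ p ∈ P, g p ≤ κ / p)
    (hrec : Real.exp (∑ p ∈ P, (1 : ℝ) / p) ≤ C2 * 2 ^ J) :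
    1 / (C2 * 2 ^ J) ^ (2 * κ) ≤ ∏ p ∈ P, (1 - g p) := by
  have h1 : ∀ p ∈ P, Real.exp (-(2 * (κ / p))) ≤ 1 - g p := by
    intro p hp
    have hp0 : (0 : ℝ) < p := by exact_mod_cast (show 0 < p by have := hP p hp; omega)
    have h2 : (κ : ℝ) / p ≤ 1 / 2 := by
      rw [div_le_div_iff₀ hp0 (by norm_num)]
      have : ((2 * κ : ℕ) : ℝ) ≤ p := by exact_mod_cast (hP p hp).le
      push_cast at this
      linarith
    have h3 : (0 : ℝ) ≤ κ / p := by positivity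
    have h4 := Real.add_one_le_exp (2 * ((κ : ℝ) / p))
    have h5 : 1 ≤ (1 - κ / p) * Real.exp (2 * ((κ : ℝ) / p)) := by
      have : 1 ≤ (1 - (κ : ℝ) / p) * (2 * ((κ : ℝ) / p) + 1) := by nlinarith
      refine this.trans ?_
      apply mul_le_mul_of_nonneg_left h4
      linarith
    rw [Real.exp_neg, inv_eq_one_div, div_le_iff₀ (Real.exp_pos _)]
    refine h5.trans ?_
    apply mul_le_mul_of_nonneg_right _ (Real.exp_pos _).le
    have := hg p hp
    linarith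
  have h2 : Real.exp (-(2 * κ * ∑ p ∈ P, (1 : ℝ) / p)) ≤ ∏ p ∈ P, (1 - g p) := by
    have h3 : -(2 * κ * ∑ p ∈ P, (1 : ℝ) / p) = ∑ p ∈ P, -(2 * ((κ : ℝ) / p)) := by
      rw [mul_sum, ← sum_neg_distrib]
      apply sum_congr rfl
      intro p _
      ring
    rw [h3, Real.exp_sum]
    exact Finset.prod_le_prod (fun p _ => (Real.exp_pos _).le) h1
  refine le_trans ?_ h2
  rw [Real.exp_neg, inv_eq_one_div]
  apply one_div_le_one_div_of_le (Real.exp_pos _)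
  have h3 : Real.exp (2 * κ * ∑ p ∈ P, (1 : ℝ) / p) = (Real.exp (∑ p ∈ P, (1 : ℝ) / p)) ^ (2 * κ) := by
    rw [← Real.exp_nat_mul]
    push_cast
    ring_nf
  rw [h3]
  exact pow_le_pow_left₀ (Real.exp_pos _).le hrec _

open Classical in
/-- **the fundamental lemma** -/
theorem fund {b : ℕ} (hb : 2 ≤ b) (κ : ℕ) (η : ℝ) (hη : 0 < η) :
    ∃ u c : ℝ, 0 < u ∧ 0 < c ∧ ∃ L0 : ℕ, ∀ L : ℕ, L0 ≤ L → ∀ S : Finset ℕ,
      (∀ q h : ℕ, q.Coprime (2 * b) →
        |((S.filter (fun n => n % q = h % q)).card : ℝ) - (b : ℝ) ^ L / q| ≤ er b L q) →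
      ∀ M n0 : ℕ, 0 < M → M.Coprime (2 * b) → (M : ℝ) ≤ Real.exp (c * Real.sqrt L) →
      ∀ Q : ℕ → ℕ → Prop, (∀ p n, Q p n ↔ Q p (n % p)) →
      (∀ p : ℕ, p.Prime → ¬ p ∣ 2 * b → nuB Q p ≤ κ ∧ nuB Q p < p) →
      ∀ z : ℕ, (z : ℝ) ≤ (b : ℝ) ^ (u * L) →
        |((S.filter (fun n => n % M = n0 % M ∧ ∀ l ∈ PR b M z, ¬ Q l n)).card : ℝ) -
          (b : ℝ) ^ L / M * ∏ l ∈ PR b M z, (1 - (nuB Q l : ℝ) / l)| ≤
        η * ((b : ℝ) ^ L / M * ∏ l ∈ PR b M z, (1 - (nuB Q l : ℝ) / l)) := by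
  have hbR : (2 : ℝ) ≤ b := by exact_mod_cast hb
  have hb0 : (0 : ℝ) < b := by linarith
  obtain ⟨C0, hC0, hFL⟩ := Pool.Agent.H20R2.fLem κ
  obtain ⟨hPt, hBig⟩ := level hb
  obtain ⟨d, c', hd0, _, hc', hUs⟩ := Usum hb hPt (by norm_num) hBig
  obtain ⟨K, hK⟩ : ∃ K : ℕ, K = κ + 1 := ⟨_, rfl⟩
  obtain ⟨C1, hC1, hES⟩ := err_sum b K (by omega) d hd0
  obtain ⟨C2, hC2, hrec⟩ := recip_le
  obtain ⟨B0, hB0⟩ := exists_pow_lt_of_lt_one (show 0 < η / 2 by positivity) (show (1 / 2 : ℝ) < 1 by norm_num)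
  obtain ⟨B, hB⟩ : ∃ B : ℕ, B = B0 + C0 := ⟨_, rfl⟩
  have hB2 : (1 / 2 : ℝ) ^ B ≤ η / 2 :=
    le_trans (pow_le_pow_of_le_one (by norm_num) (by norm_num) (show B0 ≤ B by omega)) hB0.le
  obtain ⟨z0, hz0⟩ : ∃ z0 : ℕ, z0 = C0 + 2 * κ + 10 := ⟨_, rfl⟩
  obtain ⟨Z, hZ⟩ : ∃ Z : ℕ, Z = ∏ l ∈ (Icc 1 z0).filter Nat.Prime, l := ⟨_, rfl⟩
  have hZpos : 0 < Z := by rw [hZ]; exact prod_pos fun l hl => (mem_filter.1 hl).2.pos
  have hZr : (1 : ℝ) ≤ Z := by exact_mod_cast hZpos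
  obtain ⟨E, hE⟩ : ∃ E : ℕ, E = C0 * B := ⟨_, rfl⟩
  obtain ⟨u, hu⟩ : ∃ u : ℝ, u = 1 / (8 * b * (E + 1)) := ⟨_, rfl⟩
  have hu0 : 0 < u := by rw [hu]; positivity
  have hE0 : (0 : ℝ) ≤ E := Nat.cast_nonneg E
  have huE : 2 * u * E ≤ 1 / 8 := by
    rw [hu]
    have e : 2 * (1 / (8 * (b : ℝ) * (E + 1))) * E = (1 / 4) * (1 / b) * (E / (E + 1)) := by
      have hE1 : (E : ℝ) + 1 ≠ 0 := by positivity
      field_simp
      ring
    rw [e]
    have h1 : (E : ℝ) / (E + 1) ≤ 1 := by rw [div_le_one (by positivity)]; linarith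
    have h2 : 1 / (b : ℝ) ≤ 1 / 2 := one_div_le_one_div_of_le (by norm_num) hbR
    have h3 : 0 ≤ 1 / (b : ℝ) := by positivity
    have h4 : (1 / 4) * (1 / (b : ℝ)) * (E / (E + 1)) ≤ (1 / 4) * (1 / b) * 1 := by
      apply mul_le_mul_of_nonneg_left h1 (by positivity)
    linarith
  have hub : 2 * u * b ≤ 1 / 4 := by
    rw [hu]
    have e : 2 * (1 / (8 * (b : ℝ) * (E + 1))) * b = (1 / 4) * (1 / (E + 1)) := by
      field_simp; norm_num
    rw [e]
    have h1 : 1 / ((E : ℝ) + 1) ≤ 1 := by rw [div_le_one (by positivity)]; linarith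
    linarith
  obtain ⟨A0, hA0⟩ : ∃ A0 : ℕ, A0 = K + 2 * κ + 1 := ⟨_, rfl⟩
  obtain ⟨C4, hC4⟩ : ∃ C4 : ℝ, C4 = 3 * (Z : ℝ) ^ 2 * C1 * C2 ^ (K + 2 * κ) * (2 / η) := ⟨_, rfl⟩
  have hC4p : 0 ≤ C4 := by rw [hC4]; positivity
  have hdec := Pool.Agent.H760R2.PalT7.dec (c' / 2) C4 (by positivity) hC4p A0
  obtain ⟨c, hc⟩ : ∃ c : ℝ, c = min (c' / 2) 1 := ⟨_, rfl⟩
  have hc0 : 0 < c := by rw [hc]; exact lt_min (by positivity) one_pos
  have hcc : c ≤ c' / 2 := by rw [hc]; exact min_le_left _ _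
  have hc1 : c ≤ 1 := by rw [hc]; exact min_le_right _ _
  -- largeness of `L`
  have hbig1 : ∀ᶠ L : ℕ in atTop, (20 : ℝ) ≤ Real.sqrt L :=
    (Real.tendsto_sqrt_atTop.comp tendsto_natCast_atTop_atTop).eventually_ge_atTop 20
  have hbig2 : ∀ᶠ L : ℕ in atTop, 20 * Real.log ((Z : ℝ) * 8 ^ E) ≤ (L : ℝ) :=
    tendsto_natCast_atTop_atTop.eventually_ge_atTop _
  obtain ⟨L0, hL0⟩ := eventually_atTop.1 (hUs.and (hdec.and (hbig1.and (hbig2.and (eventually_ge_atTop 10)))))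
  refine ⟨u, c, hu0, hc0, L0, ?_⟩
  intro L hL S hS M n0 hM hMb hMc Q hper hQ z hz
  obtain ⟨hUsL, hdecL, hb1L, hb2L, hL10⟩ := hL0 L hL
  have hMr : (0 : ℝ) < M := by exact_mod_cast hM
  have hLr : (10 : ℝ) ≤ L := by exact_mod_cast hL10
  have hsq : Real.sqrt L * Real.sqrt L = L := Real.mul_self_sqrt (by linarith)
  obtain ⟨J, hJ1, hJ2⟩ := exists_J z
  obtain ⟨W, hW⟩ : ∃ W : ℕ, W = 2 ^ 2 ^ J := ⟨_, rfl⟩
  obtain ⟨T0, hT0⟩ : ∃ T0 : Finset ℕ, T0 = (PR b M z).filter (fun l => l ≤ z0) := ⟨_, rfl⟩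
  obtain ⟨P, hP⟩ : ∃ P : Finset ℕ, P = (PR b M z).filter (fun l => ¬ l ≤ z0) := ⟨_, rfl⟩
  have hPR : ∀ l ∈ PR b M z, l.Prime ∧ l ≤ z ∧ ¬ l ∣ 2 * b * M := by
    intro l hl
    unfold PR at hl
    rw [mem_filter, mem_Icc] at hl
    exact ⟨hl.2.1, hl.1.2, hl.2.2⟩
  have hTp : ∀ l ∈ T0, l.Prime ∧ l ≤ z0 ∧ ¬ l ∣ 2 * b ∧ ¬ l ∣ M := by
    intro l hl
    rw [hT0, mem_filter] at hl
    have := hPR l hl.1
    exact ⟨this.1, hl.2, fun h => this.2.2 (h.mul_right _), fun h => this.2.2 (h.mul_left _)⟩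
  have hPp : ∀ l ∈ P, l.Prime ∧ z0 < l ∧ l ≤ z ∧ ¬ l ∣ 2 * b ∧ ¬ l ∣ M := by
    intro l hl
    rw [hP, mem_filter] at hl
    have := hPR l hl.1
    exact ⟨this.1, by omega, this.2.1, fun h => this.2.2 (h.mul_right _), fun h => this.2.2 (h.mul_left _)⟩
  have hunion : PR b M z = T0 ∪ P := by rw [hT0, hP, filter_union_filter_not_eq]
  have hdisj : Disjoint T0 P := by rw [hT0, hP]; exact disjoint_filter_filter_not _ _ _
  obtain ⟨g, hg⟩ : ∃ g : ℕ → ℝ, g = fun l => (nuB Q l : ℝ) / l := ⟨_, rfl⟩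
  have hgP : ∀ p ∈ P, 0 ≤ g p ∧ g p ≤ κ / p := by
    intro p hp
    rw [hg]
    have h1 := hPp p hp
    have h2 := (hQ p h1.1 h1.2.2.2.1).1
    refine ⟨by positivity, ?_⟩
    apply div_le_div_of_nonneg_right _ (Nat.cast_nonneg _)
    exact_mod_cast h2
  have hlt : ∀ p ∈ P, p < 2 ^ 2 ^ J := by
    intro p hp
    have h1 := hPp p hp
    rcases lt_or_eq_of_le (h1.2.2.1.trans hJ1) with h | h
    · exact h
    · exfalso
      have h2 : 2 ∣ p := by rw [h]; exact dvd_pow_self 2 (by positivity)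
      have h3 := (Nat.prime_dvd_prime_iff_eq Nat.prime_two h1.1).1 h2
      omega
  have hrecP := hrec J P (fun p hp => ⟨(hPp p hp).1, hlt p hp⟩)
  -- the small primes
  obtain ⟨Z1, hZ1⟩ : ∃ Z1 : ℕ, Z1 = ∏ l ∈ T0, l := ⟨_, rfl⟩
  have hZ1pos : 0 < Z1 := by rw [hZ1]; exact prod_pos fun l hl => (hTp l hl).1.pos
  have hZ1Z : Z1 ≤ Z := by
    rw [hZ1, hZ]
    apply prod_le_prod_of_subset_of_one_le'
    · intro l hl
      have h1 := hTp l hl
      rw [mem_filter, mem_Icc]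
      exact ⟨⟨h1.1.one_le, h1.2.1⟩, h1.1⟩
    · intro l hl _
      exact (mem_filter.1 hl).2.one_le
  have hgT0 : ∀ l ∈ T0, 1 / (l : ℝ) ≤ 1 - g l := by
    intro l hl
    have h1 := hTp l hl
    have h2 := (hQ l h1.1 h1.2.2.1).2
    have hl0 : (0 : ℝ) < l := by exact_mod_cast h1.1.pos
    rw [hg]
    have h3 : ((nuB Q l : ℕ) : ℝ) + 1 ≤ l := by exact_mod_cast h2
    have e : 1 - (nuB Q l : ℝ) / l = (l - nuB Q l) / l := by field_simp
    simp only [e]
    apply div_le_div_of_nonneg_right _ hl0.le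
    linarith
  have hprodT0 : 1 / (Z : ℝ) ≤ ∏ l ∈ T0, (1 - g l) := by
    calc 1 / (Z : ℝ) ≤ 1 / (Z1 : ℝ) := by
          apply one_div_le_one_div_of_le (by exact_mod_cast hZ1pos)
          exact_mod_cast hZ1Z
      _ = ∏ l ∈ T0, (1 / (l : ℝ)) := by
          rw [hZ1, prod_div_distrib, prod_const_one]
          push_cast
          rfl
      _ ≤ _ := Finset.prod_le_prod (fun l _ => by positivity) hgT0
  have hprodT00 : 0 ≤ ∏ l ∈ T0, (1 - g l) := le_trans (by positivity) hprodT0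
  obtain ⟨A, hA⟩ : ∃ A : ℝ, A = (b : ℝ) ^ L / M * ∏ l ∈ T0, (1 - g l) := ⟨_, rfl⟩
  have hA1 : (b : ℝ) ^ L / M * (1 / Z) ≤ A := by
    rw [hA]
    exact mul_le_mul_of_nonneg_left hprodT0 (by positivity)
  have hAp : 0 ≤ A := le_trans (by positivity) hA1
  obtain ⟨Ω, hΩ⟩ : ∃ Ω : Finset ℕ, Ω = S.filter (fun n => n % M = n0 % M ∧ ∀ l ∈ T0, ¬ Q l n) := ⟨_, rfl⟩
  obtain ⟨M', hM'⟩ : ∃ M' : ℕ, M' = M * Z1 := ⟨_, rfl⟩
  have hM'pos : 0 < M' := by rw [hM']; exact Nat.mul_pos hM hZ1pos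
  have hM'b : M'.Coprime (2 * b) := by
    rw [hM', hZ1]
    exact Nat.Coprime.mul_left hMb (Nat.Coprime.prod_left fun l hl =>
      (Nat.Prime.coprime_iff_not_dvd (hTp l hl).1).2 (hTp l hl).2.2.1)
  obtain ⟨err, herr⟩ : ∃ err : Finset ℕ → ℝ, err = fun T => (Z : ℝ) * ((K : ℝ) ^ T.card * er b L (M' * ∏ p ∈ T, p)) :=
    ⟨_, rfl⟩
  have hfl := hFL B J z0 P g (by omega) (by omega)
    (fun p hp => ⟨(hPp p hp).1, (hPp p hp).2.1, (hlt p hp).le⟩)
    (fun p hp => ⟨(hgP p hp).1, (hgP p hp).2.trans (by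
      have h1 : (1 : ℝ) < p := by exact_mod_cast (hPp p hp).1.one_lt
      apply div_le_div_of_nonneg_left (Nat.cast_nonneg _) (by linarith) (by linarith))⟩)
    Ω (fun _ => 1) Q A err (fun _ _ => zero_le_one) hAp
    (fun T hT _ => by
      have hTT : Disjoint T0 T := disjoint_of_subset_right hT hdisj
      have h1 := Pool.Agent.Y816.PS.local_gen hS M n0 hM hMb (fun l n => if l ∈ T0 then ¬ Q l n else Q l n)
        (fun p n => by
          by_cases h : p ∈ T0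
          · simp only [h, if_true]
            rw [hper]
          · simp only [h, if_false]
            exact hper p n) (T0 ∪ T)
        (fun l hl => by
          rw [mem_union] at hl
          rcases hl with hl | hl
          · exact (hTp l hl).1
          · exact (hPp l (hT hl)).1)
        (fun l hl => by
          rw [mem_union] at hl
          rcases hl with hl | hl
          · exact (hTp l hl).2.2.2
          · exact (hPp l (hT hl)).2.2.2.2)
        (fun l hl => by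
          rw [mem_union] at hl
          rcases hl with hl | hl
          · exact (hTp l hl).2.2.1
          · exact (hPp l (hT hl)).2.2.2.1)
      have h2 : ∑ m ∈ Ω.filter (fun m => ∀ p ∈ T, Q p m), (1 : ℝ) =
          ((S.filter (fun n => n % M = n0 % M ∧ ∀ l ∈ T0 ∪ T, (if l ∈ T0 then ¬ Q l n else Q l n))).card : ℝ) := by
        rw [sum_const, nsmul_eq_mul, mul_one, hΩ, filter_filter]
        congr 2
        apply filter_congr
        intro n _
        constructor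
        · rintro ⟨⟨g0, g1⟩, g2⟩
          refine ⟨g0, fun l hl => ?_⟩
          by_cases hlT : l ∈ T0
          · rw [if_pos hlT]
            exact g1 l hlT
          · rw [if_neg hlT]
            rw [mem_union] at hl
            rcases hl with hl | hl
            · exact absurd hl hlT
            · exact g2 l hl
        · rintro ⟨g0, g1⟩
          refine ⟨⟨g0, fun l hl => ?_⟩, fun l hl => ?_⟩
          · have := g1 l (mem_union_left _ hl)
            rwa [if_pos hl] at this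
          · have hlT : l ∉ T0 := fun h => (disjoint_left.1 hTT) h hl
            have := g1 l (mem_union_right _ hl)
            rwa [if_neg hlT] at this
      have h3 : (b : ℝ) ^ L / M * ∏ l ∈ T0 ∪ T, ((nuB (fun l n => if l ∈ T0 then ¬ Q l n else Q l n) l : ℝ) / l) =
          A * ∏ p ∈ T, g p := by
        rw [prod_union hTT, hA, mul_assoc]
        congr 2
        · apply prod_congr rfl
          intro l hl
          have h4 := hTp l hl
          have h5 := (hQ l h4.1 h4.2.2.1).2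
          have hl0 : (l : ℝ) ≠ 0 := by exact_mod_cast h4.1.pos.ne'
          rw [nuB_mix, if_pos hl, Nat.cast_sub h5.le, hg]
          field_simp
        · apply prod_congr rfl
          intro l hl
          have hlT : l ∉ T0 := fun h => (disjoint_left.1 hTT) h hl
          rw [nuB_mix, if_neg hlT, hg]
      have h4 : M * ∏ l ∈ T0 ∪ T, l = M' * ∏ l ∈ T, l := by
        rw [prod_union hTT, hM', hZ1]
        ring
      have h5 : ∏ l ∈ T0 ∪ T, (nuB (fun l n => if l ∈ T0 then ¬ Q l n else Q l n) l : ℝ) ≤ Z * (K : ℝ) ^ T.card := by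
        rw [prod_union hTT]
        apply mul_le_mul
        · calc ∏ l ∈ T0, (nuB (fun l n => if l ∈ T0 then ¬ Q l n else Q l n) l : ℝ) ≤ ∏ l ∈ T0, (l : ℝ) := by
                apply Finset.prod_le_prod (fun _ _ => Nat.cast_nonneg _)
                intro l hl
                rw [nuB_mix, if_pos hl]
                exact_mod_cast Nat.sub_le _ _
            _ = (Z1 : ℝ) := by rw [hZ1]; push_cast; rfl
            _ ≤ Z := by exact_mod_cast hZ1Z
        · calc ∏ l ∈ T, (nuB (fun l n => if l ∈ T0 then ¬ Q l n else Q l n) l : ℝ) ≤ ∏ _l ∈ T, (K : ℝ) := by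
                apply Finset.prod_le_prod (fun _ _ => Nat.cast_nonneg _)
                intro l hl
                have hlT : l ∉ T0 := fun h => (disjoint_left.1 hTT) h hl
                rw [nuB_mix, if_neg hlT]
                have h6 := hPp l (hT hl)
                have h7 := (hQ l h6.1 h6.2.2.2.1).1
                exact_mod_cast h7.trans (by omega)
            _ = (K : ℝ) ^ T.card := by rw [prod_const]
        · exact prod_nonneg fun _ _ => Nat.cast_nonneg _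
        · positivity
      rw [h2, ← h3]
      refine le_trans (le_of_eq ?_) (h1.trans ?_)
      · congr!
      · rw [herr, h4]
        show _ ≤ (Z : ℝ) * ((K : ℝ) ^ T.card * er b L (M' * ∏ p ∈ T, p))
        rw [← mul_assoc]
        exact mul_le_mul_of_nonneg_right h5 (er_nonneg _ _ _))
  -- the sifted set
  have hScard : ∑ m ∈ Ω.filter (fun m => ∀ p ∈ P, ¬ Q p m), (1 : ℝ) =
      ((S.filter (fun n => n % M = n0 % M ∧ ∀ l ∈ PR b M z, ¬ Q l n)).card : ℝ) := by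
    rw [sum_const, nsmul_eq_mul, mul_one, hΩ, filter_filter, hunion]
    congr 2
    apply filter_congr
    intro n _
    constructor
    · rintro ⟨⟨g0, g1⟩, g2⟩
      refine ⟨g0, fun l hl => ?_⟩
      rcases mem_union.1 hl with hl | hl
      · exact g1 l hl
      · exact g2 l hl
    · rintro ⟨g0, g1⟩
      exact ⟨⟨g0, fun l hl => g1 l (mem_union_left _ hl)⟩, fun l hl => g1 l (mem_union_right _ hl)⟩
  have hprod : (b : ℝ) ^ L / M * ∏ l ∈ PR b M z, (1 - (nuB Q l : ℝ) / l) = A * ∏ p ∈ P, (1 - g p) := by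
    rw [hunion, prod_union hdisj, hA, hg]
    ring
  rw [hprod]
  rw [hScard] at hfl
  obtain ⟨V, hVdef⟩ : ∃ V : ℝ, V = ∏ p ∈ P, (1 - g p) := ⟨_, rfl⟩
  have hV : 1 / (C2 * 2 ^ J) ^ (2 * κ) ≤ V := by
    rw [hVdef]
    exact prod_low κ J C2 hC2 P (fun p hp => by have := (hPp p hp).2.1; omega) g (fun p hp => (hgP p hp).1)
      (fun p hp => (hgP p hp).2) hrecP
  rw [← hVdef] at hfl ⊢
  have hJpos : (0 : ℝ) < C2 * 2 ^ J := by positivity
  have hAV0 : (b : ℝ) ^ L / M * (1 / Z) * (1 / (C2 * 2 ^ J) ^ (2 * κ)) ≤ A * V :=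
    mul_le_mul hA1 hV (by positivity) hAp
  have hAV : 0 ≤ A * V := le_trans (by positivity) hAV0
  -- sizes
  have hzW : (W : ℝ) ≤ 8 * (b : ℝ) ^ (2 * u * L) := by
    have hz1 : (1 : ℝ) ≤ (b : ℝ) ^ (u * L) := Real.one_le_rpow (by linarith) (by positivity)
    have h1 : (W : ℝ) ≤ 2 * ((z : ℝ) + 1) ^ 2 := by
      rw [hW]
      exact_mod_cast hJ2
    have h2 : (b : ℝ) ^ (2 * u * L) = ((b : ℝ) ^ (u * L)) ^ 2 := by
      rw [← Real.rpow_natCast, ← Real.rpow_mul hb0.le]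
      congr 1
      push_cast
      ring
    rw [h2]
    have hz0' : (0 : ℝ) ≤ z := Nat.cast_nonneg z
    nlinarith
  have h2J : (2 : ℝ) ^ J ≤ L := by
    have h1 : (W : ℝ) = (2 : ℝ) ^ (2 ^ J : ℕ) := by rw [hW]; push_cast; ring
    have h2 := Real.log_le_log (by rw [h1]; positivity) hzW
    rw [h1, Real.log_pow, Real.log_mul (by norm_num) (by positivity), Real.log_rpow hb0] at h2
    have h8 : Real.log 8 = 3 * Real.log 2 := by
      rw [show (8 : ℝ) = 2 ^ 3 by norm_num, Real.log_pow]; norm_num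
    have hlog2 := Real.log_two_gt_d9
    have hlb : Real.log b ≤ b := (Real.log_le_sub_one_of_pos hb0).trans (by linarith)
    have hlb0 : 0 ≤ Real.log b := Real.log_nonneg (by linarith)
    rw [h8] at h2
    push_cast at h2
    have h9 : 2 * u * L * Real.log b ≤ 1 / 4 * L := by
      calc 2 * u * L * Real.log b ≤ 2 * u * L * b := mul_le_mul_of_nonneg_left hlb (by positivity)
        _ = (2 * u * b) * L := by ring
        _ ≤ 1 / 4 * L := mul_le_mul_of_nonneg_right hub (by linarith)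
    have h10 : (2 : ℝ) ^ J * Real.log 2 ≤ L * Real.log 2 := by nlinarith
    exact le_of_mul_le_mul_right h10 (by linarith)
  have hJL : (J : ℝ) + 2 ≤ 3 * L := by
    have h1 : (J : ℝ) < 2 ^ J := by exact_mod_cast Nat.lt_two_pow_self
    linarith
  have hD : M' * (2 ^ 2 ^ J) ^ (C0 * B) ≤ ⌊(b : ℝ) ^ ((49 / 100 : ℝ) * L)⌋₊ := by
    apply Nat.le_floor
    rw [← hW, ← hE, hM']
    push_cast
    have h1 : (W : ℝ) ^ E ≤ 8 ^ E * (b : ℝ) ^ (1 / 8 * (L : ℝ)) := by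
      calc (W : ℝ) ^ E ≤ (8 * (b : ℝ) ^ (2 * u * L)) ^ E := pow_le_pow_left₀ (Nat.cast_nonneg _) hzW _
        _ = 8 ^ E * (b : ℝ) ^ (2 * u * L * E) := by
            rw [mul_pow, ← Real.rpow_natCast ((b : ℝ) ^ (2 * u * L)), ← Real.rpow_mul hb0.le]
        _ ≤ 8 ^ E * (b : ℝ) ^ (1 / 8 * (L : ℝ)) := by
            apply mul_le_mul_of_nonneg_left _ (by positivity)
            apply Real.rpow_le_rpow_of_exponent_le (by linarith)
            calc 2 * u * L * E = (2 * u * E) * L := by ring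
              _ ≤ 1 / 8 * L := mul_le_mul_of_nonneg_right huE (by linarith)
    have h2 : (Z1 : ℝ) ≤ Z := by exact_mod_cast hZ1Z
    have h3 : Real.exp (c * Real.sqrt L) * ((Z : ℝ) * 8 ^ E) ≤ (b : ℝ) ^ (1 / 4 * (L : ℝ)) := by
      have h4 : c * Real.sqrt L ≤ 1 / 20 * L := by
        have h5 : c * Real.sqrt L ≤ 1 * Real.sqrt L := mul_le_mul_of_nonneg_right hc1 (Real.sqrt_nonneg _)
        nlinarith
      have h5 : (Z : ℝ) * 8 ^ E = Real.exp (Real.log ((Z : ℝ) * 8 ^ E)) := (Real.exp_log (by positivity)).symm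
      have h6 : (b : ℝ) ^ (1 / 4 * (L : ℝ)) = Real.exp (1 / 4 * L * Real.log b) := by
        rw [Real.rpow_def_of_pos hb0]; ring_nf
      rw [h5, h6, ← Real.exp_add]
      apply Real.exp_le_exp.2
      have hlog2 := Real.log_two_gt_d9
      have h7 : Real.log 2 ≤ Real.log b := Real.log_le_log (by norm_num) hbR
      nlinarith
    calc (M : ℝ) * Z1 * W ^ E ≤ Real.exp (c * Real.sqrt L) * Z * (8 ^ E * (b : ℝ) ^ (1 / 8 * (L : ℝ))) := by
          gcongr
      _ = (Real.exp (c * Real.sqrt L) * ((Z : ℝ) * 8 ^ E)) * (b : ℝ) ^ (1 / 8 * (L : ℝ)) := by ring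
      _ ≤ (b : ℝ) ^ (1 / 4 * (L : ℝ)) * (b : ℝ) ^ (1 / 8 * (L : ℝ)) := by gcongr
      _ = (b : ℝ) ^ (1 / 4 * (L : ℝ) + 1 / 8 * (L : ℝ)) := by rw [← Real.rpow_add hb0]
      _ ≤ (b : ℝ) ^ ((49 / 100 : ℝ) * L) := by
          apply Real.rpow_le_rpow_of_exponent_le (by linarith)
          linarith
  have hES' := hES L M' ((2 ^ 2 ^ J) ^ (C0 * B)) _ P hM'pos hM'b (fun p hp => ⟨(hPp p hp).1, (by
    rw [hM']
    intro h
    rcases (hPp p hp).1.dvd_mul.1 h with h1 | h1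
    · exact (hPp p hp).2.2.2.2 h1
    · rw [hZ1] at h1
      obtain ⟨q, hq, hpq⟩ := (Nat.prime_iff.1 (hPp p hp).1).exists_mem_finset_dvd h1
      have h2 := (Nat.prime_dvd_prime_iff_eq (hPp p hp).1 (hTp q hq).1).1 hpq
      have h3 := (hTp q hq).2.1
      have h4 := (hPp p hp).2.1
      omega), (hPp p hp).2.2.2.1⟩) hD
  have hPi : ∏ p ∈ P, (1 + (K : ℝ) / p) ≤ (C2 * 2 ^ J) ^ K := by
    calc ∏ p ∈ P, (1 + (K : ℝ) / p) ≤ ∏ p ∈ P, Real.exp ((K : ℝ) / p) := by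
          apply Finset.prod_le_prod (fun p _ => by positivity)
          intro p _
          have := Real.add_one_le_exp ((K : ℝ) / p)
          linarith
      _ = (Real.exp (∑ p ∈ P, (1 : ℝ) / p)) ^ K := by
          rw [← Real.exp_sum, ← Real.exp_nat_mul, mul_sum]
          congr 1
          apply sum_congr rfl
          intro p _
          ring
      _ ≤ _ := pow_le_pow_left₀ (Real.exp_pos _).le hrecP _
  have herrsum : ((J : ℝ) + 2) * ∑ T ∈ P.powerset.filter (fun T : Finset ℕ => ∏ p ∈ T, p ≤ (2 ^ 2 ^ J) ^ (C0 * B)), err T ≤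
      η / 2 * (A * V) := by
    have h1 : ∑ T ∈ P.powerset.filter (fun T : Finset ℕ => ∏ p ∈ T, p ≤ (2 ^ 2 ^ J) ^ (C0 * B)), err T ≤
        Z * (C1 * (b : ℝ) ^ L * (C2 * 2 ^ J) ^ K * Real.exp (-(c' * Real.sqrt L))) := by
      rw [herr, ← mul_sum]
      apply mul_le_mul_of_nonneg_left _ (by positivity)
      refine hES'.trans ?_
      have h2 : 0 ≤ ∑ d_1 ∈ (Icc 2 ⌊(b : ℝ) ^ ((49 / 100 : ℝ) * L)⌋₊).filter (fun q => q.Coprime (2 * b)),
          (d_1 : ℝ) ^ d * U b b 1 L d_1 / d_1 := sum_nonneg fun q _ =>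
        div_nonneg (mul_nonneg (by positivity) (U_nonneg b b 1 L q)) (Nat.cast_nonneg q)
      apply mul_le_mul _ hUsL h2 (by positivity)
      apply mul_le_mul_of_nonneg_left hPi (by positivity)
    have h3 : (C2 * 2 ^ J) ^ (K + 2 * κ) ≤ C2 ^ (K + 2 * κ) * (L : ℝ) ^ (K + 2 * κ) := by
      rw [← mul_pow]
      apply pow_le_pow_left₀ hJpos.le
      exact mul_le_mul_of_nonneg_left h2J (by linarith)
    have h4 : C4 * Real.exp (-(c' / 2 * Real.sqrt L)) * (L : ℝ) ^ A0 ≤ 1 := by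
      rw [le_div_iff₀ (by positivity)] at hdecL
      exact hdecL
    have h5 : Real.exp (-(c' * Real.sqrt L)) = Real.exp (-(c' / 2 * Real.sqrt L)) * Real.exp (-(c' / 2 * Real.sqrt L)) := by
      rw [← Real.exp_add]; congr 1; ring
    have h6 : (M : ℝ) * Real.exp (-(c' / 2 * Real.sqrt L)) ≤ 1 := by
      have h7 : (M : ℝ) ≤ Real.exp (c' / 2 * Real.sqrt L) := by
        refine hMc.trans (Real.exp_le_exp.2 ?_)
        exact mul_le_mul_of_nonneg_right hcc (Real.sqrt_nonneg _)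
      calc (M : ℝ) * Real.exp (-(c' / 2 * Real.sqrt L)) ≤ Real.exp (c' / 2 * Real.sqrt L) * Real.exp (-(c' / 2 * Real.sqrt L)) :=
            mul_le_mul_of_nonneg_right h7 (Real.exp_pos _).le
        _ = 1 := by rw [← Real.exp_add]; simp
    have h8 : ((J : ℝ) + 2) * (Z * (C1 * (b : ℝ) ^ L * (C2 * 2 ^ J) ^ K * Real.exp (-(c' * Real.sqrt L)))) ≤
        η / 2 * ((b : ℝ) ^ L / M * (1 / Z) * (1 / (C2 * 2 ^ J) ^ (2 * κ))) := by
      have e1 : η / 2 * ((b : ℝ) ^ L / M * (1 / Z) * (1 / (C2 * 2 ^ J) ^ (2 * κ))) =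
          (η / 2 * (b : ℝ) ^ L) / (M * Z * (C2 * 2 ^ J) ^ (2 * κ)) := by field_simp
      rw [e1, le_div_iff₀ (by positivity)]
      calc ((J : ℝ) + 2) * (Z * (C1 * (b : ℝ) ^ L * (C2 * 2 ^ J) ^ K * Real.exp (-(c' * Real.sqrt L)))) * (M * Z * (C2 * 2 ^ J) ^ (2 * κ))
          = (((J : ℝ) + 2) * ((Z : ℝ) ^ 2 * C1 * (C2 * 2 ^ J) ^ (K + 2 * κ))) * Real.exp (-(c' / 2 * Real.sqrt L)) *
            (M * Real.exp (-(c' / 2 * Real.sqrt L))) * (b : ℝ) ^ L := by
            rw [h5, pow_add]; ring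
        _ ≤ (3 * L * ((Z : ℝ) ^ 2 * C1 * (C2 ^ (K + 2 * κ) * (L : ℝ) ^ (K + 2 * κ)))) * Real.exp (-(c' / 2 * Real.sqrt L)) *
            1 * (b : ℝ) ^ L := by
            gcongr
        _ = (η / 2) * (C4 * Real.exp (-(c' / 2 * Real.sqrt L)) * (L : ℝ) ^ A0) * (b : ℝ) ^ L := by
            rw [hC4, hA0, pow_succ]
            field_simp
            ring
        _ ≤ (η / 2) * 1 * (b : ℝ) ^ L := by gcongr
        _ = η / 2 * (b : ℝ) ^ L := by ring
    calc ((J : ℝ) + 2) * ∑ T ∈ P.powerset.filter (fun T : Finset ℕ => ∏ p ∈ T, p ≤ (2 ^ 2 ^ J) ^ (C0 * B)), err T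
        ≤ ((J : ℝ) + 2) * (Z * (C1 * (b : ℝ) ^ L * (C2 * 2 ^ J) ^ K * Real.exp (-(c' * Real.sqrt L)))) :=
          mul_le_mul_of_nonneg_left h1 (by positivity)
      _ ≤ _ := h8
      _ ≤ η / 2 * (A * V) := mul_le_mul_of_nonneg_left hAV0 (by positivity)
  calc _ ≤ (1 / 2 : ℝ) ^ B * (A * V) + η / 2 * (A * V) := by
        refine hfl.trans ?_
        exact add_le_add le_rfl herrsum
      _ ≤ η / 2 * (A * V) + η / 2 * (A * V) := by gcongr
      _ = η * (A * V) := by ring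

end Pool.Agent.X37.PL
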