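import Pool.Agent.X37.PL.Set

/-!
# Lower bounds of the right order for palindromes avoiding few residue classes
-/

set_option autoImplicit false

namespace Pool.Agent.X37.PL

open Finset Pool.Agent.Y816.PS
open Pool.Agent.H373R2.T7 (nuB)

lemma exp_quad {x : ℝ} (h0 : 0 ≤ x) (h1 : x ≤ 1 / 2) : Real.exp (-(x + x ^ 2)) ≤ 1 - x := by
  have h2 := Real.quadratic_le_exp_of_nonneg (show 0 ≤ x + x ^ 2 by positivity)
  rw [Real.exp_neg, inv_eq_one_div, div_le_iff₀ (Real.exp_pos _)]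
  have h3 : 1 ≤ (1 - x) * (1 + (x + x ^ 2) + (x + x ^ 2) ^ 2 / 2) := by
    have e : (1 - x) * (1 + (x + x ^ 2) + (x + x ^ 2) ^ 2 / 2) = 1 + x ^ 2 / 2 * (1 - x - x ^ 2 - x ^ 3) := by ring
    rw [e]
    have h4 : x ^ 2 ≤ 1 / 4 := by nlinarith
    have h5 : x ^ 3 ≤ 1 / 8 := by nlinarith [mul_nonneg h0 h0]
    have h6 : 0 ≤ x ^ 2 / 2 := by positivity
    nlinarith
  refine h3.trans (mul_le_mul_of_nonneg_left h2 (by linarith))

/-- sums of reciprocal squares -/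
lemma sq_sum_le (P : Finset ℕ) (hP : ∀ p ∈ P, 2 ≤ p) : ∑ p ∈ P, (1 : ℝ) / (p : ℝ) ^ 2 ≤ 1 := by
  have key : ∀ n : ℕ, ∑ p ∈ Ico 2 (n + 2), (1 : ℝ) / (p : ℝ) ^ 2 ≤ 1 - 1 / (n + 1) := by
    intro n
    induction n with
    | zero => simp
    | succ n ih =>
      rw [sum_Ico_succ_top (by omega)]
      have h1 : (1 : ℝ) / ((n + 2 : ℕ) : ℝ) ^ 2 ≤ 1 / (n + 1) - 1 / (n + 2) := by
        have h2 : (1 : ℝ) / (n + 1) - 1 / (n + 2) = 1 / ((n + 1) * (n + 2)) := by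
          field_simp
          ring
        rw [h2]
        apply one_div_le_one_div_of_le (by positivity)
        push_cast
        nlinarith
      push_cast at h1 ⊢
      have h3 : (1 : ℝ) / (n + 1 + 1) = 1 / (n + 2) := by ring_nf
      rw [h3]
      linarith
  obtain ⟨n, hn⟩ : ∃ n : ℕ, ∀ p ∈ P, p < n + 2 := by
    refine ⟨P.sup id, fun p hp => ?_⟩
    have := Finset.le_sup (f := id) hp
    simp only [id] at this
    omega
  calc ∑ p ∈ P, (1 : ℝ) / (p : ℝ) ^ 2 ≤ ∑ p ∈ Ico 2 (n + 2), (1 : ℝ) / (p : ℝ) ^ 2 := by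
        apply sum_le_sum_of_subset_of_nonneg
        · intro p hp
          rw [mem_Ico]
          exact ⟨hP p hp, hn p hp⟩
        · intro p _ _
          positivity
    _ ≤ 1 - 1 / (n + 1) := key n
    _ ≤ 1 := by
        have : (0 : ℝ) ≤ 1 / (n + 1) := by positivity
        linarith

/-- sharp lower bound for the product over the large primes -/
lemma prod_sharp (κ : ℕ) (X : ℝ) (hX : 0 < X) (P : Finset ℕ) (hP : ∀ p ∈ P, 2 ≤ p ∧ 2 * κ < p) (g : ℕ → ℝ)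
    (hg : ∀ p ∈ P, g p ≤ κ / p) (hrec : Real.exp (∑ p ∈ P, (1 : ℝ) / p) ≤ X) :
    Real.exp (-((κ : ℝ) ^ 2)) / X ^ κ ≤ ∏ p ∈ P, (1 - g p) := by
  have h1 : ∀ p ∈ P, Real.exp (-((κ : ℝ) / p + ((κ : ℝ) / p) ^ 2)) ≤ 1 - g p := by
    intro p hp
    have hp0 : (0 : ℝ) < p := by exact_mod_cast (show 0 < p by have := hP p hp; omega)
    have h2 : (κ : ℝ) / p ≤ 1 / 2 := by
      rw [div_le_div_iff₀ hp0 (by norm_num)]
      have : ((2 * κ : ℕ) : ℝ) ≤ p := by exact_mod_cast (hP p hp).2.le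
      push_cast at this
      linarith
    have h3 : (0 : ℝ) ≤ κ / p := by positivity
    refine (exp_quad h3 h2).trans ?_
    have := hg p hp
    linarith
  have h2 : Real.exp (-((κ : ℝ) * ∑ p ∈ P, (1 : ℝ) / p + (κ : ℝ) ^ 2 * ∑ p ∈ P, (1 : ℝ) / (p : ℝ) ^ 2)) ≤
      ∏ p ∈ P, (1 - g p) := by
    have h3 : -((κ : ℝ) * ∑ p ∈ P, (1 : ℝ) / p + (κ : ℝ) ^ 2 * ∑ p ∈ P, (1 : ℝ) / (p : ℝ) ^ 2) =
        ∑ p ∈ P, -((κ : ℝ) / p + ((κ : ℝ) / p) ^ 2) := by
      rw [mul_sum, mul_sum, ← sum_add_distrib, ← sum_neg_distrib]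
      apply sum_congr rfl
      intro p _
      rw [div_pow]
      ring
    rw [h3, Real.exp_sum]
    exact Finset.prod_le_prod (fun p _ => (Real.exp_pos _).le) h1
  refine le_trans ?_ h2
  have hsq := sq_sum_le P (fun p hp => (hP p hp).1)
  have h4 : Real.exp (-((κ : ℝ) ^ 2)) * Real.exp (-((κ : ℝ) * ∑ p ∈ P, (1 : ℝ) / p)) ≤
      Real.exp (-((κ : ℝ) * ∑ p ∈ P, (1 : ℝ) / p + (κ : ℝ) ^ 2 * ∑ p ∈ P, (1 : ℝ) / (p : ℝ) ^ 2)) := by
    rw [← Real.exp_add]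
    apply Real.exp_le_exp.2
    have : (κ : ℝ) ^ 2 * ∑ p ∈ P, (1 : ℝ) / (p : ℝ) ^ 2 ≤ (κ : ℝ) ^ 2 * 1 :=
      mul_le_mul_of_nonneg_left hsq (by positivity)
    linarith
  refine le_trans ?_ h4
  rw [div_eq_mul_one_div]
  apply mul_le_mul_of_nonneg_left _ (Real.exp_pos _).le
  rw [Real.exp_neg, inv_eq_one_div]
  apply one_div_le_one_div_of_le (Real.exp_pos _)
  have h5 : Real.exp ((κ : ℝ) * ∑ p ∈ P, (1 : ℝ) / p) = (Real.exp (∑ p ∈ P, (1 : ℝ) / p)) ^ κ := by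
    rw [← Real.exp_nat_mul]
  rw [h5]
  exact pow_le_pow_left₀ (Real.exp_pos _).le hrec _

open Classical in
/-- **lower bound of the right order** -/
theorem low {b : ℕ} (hb : 2 ≤ b) (κ : ℕ) :
    ∃ u c c₁ : ℝ, 0 < u ∧ 0 < c ∧ 0 < c₁ ∧ ∃ L0 : ℕ, ∀ L N x e : ℕ, L0 ≤ L → L < N → b ^ (2 * N) ≤ x →
      x < b ^ (2 * N + 1) → e < b → ∀ M r : ℕ, 0 < M → M.Coprime (2 * b) → (M : ℝ) ≤ Real.exp (c₁ * Real.sqrt L) →
      ∀ Q : ℕ → ℕ → Prop, (∀ p n, Q p n ↔ Q p (n % p)) →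
      (∀ p : ℕ, p.Prime → ¬ p ∣ 2 * b → nuB Q p ≤ κ ∧ nuB Q p < p) →
        c * (b : ℝ) ^ L / (M * (L : ℝ) ^ κ) ≤
        (((PalS b N L x e).filter (fun n => n % M = r % M ∧
          ∀ p : ℕ, p.Prime → ¬ p ∣ 2 * b * M → (p : ℝ) ≤ (b : ℝ) ^ (u * L) → ¬ Q p n)).card : ℝ) := by
  obtain ⟨u, c₁, hu, hc₁, L1, h⟩ := fund hb κ (1 / 2) (by norm_num)
  obtain ⟨C2, hC2, hrec⟩ := recip_le
  have hbR : (2 : ℝ) ≤ b := by exact_mod_cast hb
  have hb0 : (0 : ℝ) < b := by linarith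
  obtain ⟨z0, hz0⟩ : ∃ z0 : ℕ, z0 = 2 * κ + 2 := ⟨_, rfl⟩
  obtain ⟨Z, hZ⟩ : ∃ Z : ℕ, Z = ∏ l ∈ (Icc 1 z0).filter Nat.Prime, l := ⟨_, rfl⟩
  have hZpos : 0 < Z := by rw [hZ]; exact prod_pos fun l hl => (mem_filter.1 hl).2.pos
  have hZr : (1 : ℝ) ≤ Z := by exact_mod_cast hZpos
  obtain ⟨C3, hC3⟩ : ∃ C3 : ℝ, C3 = 6 + 4 * u * b := ⟨_, rfl⟩
  have hC3p : 0 < C3 := by rw [hC3]; positivity
  obtain ⟨c, hc⟩ : ∃ c : ℝ, c = 1 / 2 * (1 / Z) * (Real.exp (-((κ : ℝ) ^ 2)) / (C2 * C3) ^ κ) := ⟨_, rfl⟩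
  have hc0 : 0 < c := by rw [hc]; positivity
  refine ⟨u, c, c₁, hu, hc0, hc₁, L1 + 1, ?_⟩
  intro L N x e hL hN h1 h2 he M r hM hMb hMc Q hper hQ
  have hL1 : (1 : ℝ) ≤ L := by exact_mod_cast (show 1 ≤ L by omega)
  obtain ⟨z, hz⟩ : ∃ z : ℕ, z = ⌊(b : ℝ) ^ (u * L)⌋₊ := ⟨_, rfl⟩
  have hzle : (z : ℝ) ≤ (b : ℝ) ^ (u * L) := by rw [hz]; exact Nat.floor_le (by positivity)
  have h3 := h L (by omega) (PalS b N L x e) (fun q h hq => by
    have := PalS_class hb hN h1 h2 he q h hq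
    convert this) M r hM hMb hMc Q hper hQ z hzle
  obtain ⟨V, hV⟩ : ∃ V : ℝ, V = ∏ l ∈ PR b M z, (1 - (nuB Q l : ℝ) / l) := ⟨_, rfl⟩
  rw [← hV] at h3
  have h4 := (abs_le.1 h3).1
  have hcard : ((PalS b N L x e).filter (fun n => n % M = r % M ∧ ∀ l ∈ PR b M z, ¬ Q l n)) ⊆
      ((PalS b N L x e).filter (fun n => n % M = r % M ∧
          ∀ p : ℕ, p.Prime → ¬ p ∣ 2 * b * M → (p : ℝ) ≤ (b : ℝ) ^ (u * L) → ¬ Q p n)) := by
    intro n hn
    rw [mem_filter] at hn ⊢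
    refine ⟨hn.1, hn.2.1, fun p hp hpM hpu => hn.2.2 p ?_⟩
    unfold PR
    rw [mem_filter, mem_Icc]
    refine ⟨⟨hp.one_le, ?_⟩, hp, hpM⟩
    rw [hz]
    exact Nat.le_floor hpu
  have hcard' : (((PalS b N L x e).filter (fun n => n % M = r % M ∧ ∀ l ∈ PR b M z, ¬ Q l n)).card : ℝ) ≤
      (((PalS b N L x e).filter (fun n => n % M = r % M ∧
          ∀ p : ℕ, p.Prime → ¬ p ∣ 2 * b * M → (p : ℝ) ≤ (b : ℝ) ^ (u * L) → ¬ Q p n)).card : ℝ) := by
    exact_mod_cast card_le_card hcard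
  refine le_trans ?_ hcard'
  have hMr : (0 : ℝ) < M := by exact_mod_cast hM
  -- the product
  obtain ⟨J, hJ1, hJ2⟩ := exists_J z
  obtain ⟨T0, hT0⟩ : ∃ T0 : Finset ℕ, T0 = (PR b M z).filter (fun l => l ≤ z0) := ⟨_, rfl⟩
  obtain ⟨P, hP⟩ : ∃ P : Finset ℕ, P = (PR b M z).filter (fun l => ¬ l ≤ z0) := ⟨_, rfl⟩
  have hPR : ∀ l ∈ PR b M z, l.Prime ∧ l ≤ z ∧ ¬ l ∣ 2 * b := by
    intro l hl
    unfold PR at hl
    rw [mem_filter, mem_Icc] at hl
    exact ⟨hl.2.1, hl.1.2, fun h => hl.2.2 (h.mul_right _)⟩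
  have hunion : PR b M z = T0 ∪ P := by rw [hT0, hP, filter_union_filter_not_eq]
  have hdisj : Disjoint T0 P := by rw [hT0, hP]; exact disjoint_filter_filter_not _ _ _
  have hPp : ∀ l ∈ P, l.Prime ∧ z0 < l ∧ l ≤ z ∧ ¬ l ∣ 2 * b := by
    intro l hl
    rw [hP, mem_filter] at hl
    have := hPR l hl.1
    exact ⟨this.1, by omega, this.2.1, this.2.2⟩
  have hlt : ∀ p ∈ P, p < 2 ^ 2 ^ J := by
    intro p hp
    have h1 := hPp p hp
    rcases lt_or_eq_of_le (h1.2.2.1.trans hJ1) with h | h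
    · exact h
    · exfalso
      have h2 : 2 ∣ p := by rw [h]; exact dvd_pow_self 2 (by positivity)
      have h3 := (Nat.prime_dvd_prime_iff_eq Nat.prime_two h1.1).1 h2
      omega
  have hrecP := hrec J P (fun p hp => ⟨(hPp p hp).1, hlt p hp⟩)
  have h2J : (2 : ℝ) ^ J ≤ C3 * L := by
    have hzW : ((2 ^ 2 ^ J : ℕ) : ℝ) ≤ 8 * (b : ℝ) ^ (2 * u * L) := by
      have hz1 : (1 : ℝ) ≤ (b : ℝ) ^ (u * L) := Real.one_le_rpow (by linarith) (by positivity)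
      have h1 : ((2 ^ 2 ^ J : ℕ) : ℝ) ≤ 2 * ((z : ℝ) + 1) ^ 2 := by exact_mod_cast hJ2
      have h2 : (b : ℝ) ^ (2 * u * L) = ((b : ℝ) ^ (u * L)) ^ 2 := by
        rw [← Real.rpow_natCast, ← Real.rpow_mul hb0.le]
        congr 1
        push_cast
        ring
      rw [h2]
      have hz0' : (0 : ℝ) ≤ z := Nat.cast_nonneg z
      nlinarith
    have h1 : ((2 ^ 2 ^ J : ℕ) : ℝ) = (2 : ℝ) ^ (2 ^ J : ℕ) := by push_cast; ring
    have h2 := Real.log_le_log (by rw [h1]; positivity) hzW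
    rw [h1, Real.log_pow, Real.log_mul (by norm_num) (by positivity), Real.log_rpow hb0] at h2
    have h8 : Real.log 8 = 3 * Real.log 2 := by
      rw [show (8 : ℝ) = 2 ^ 3 by norm_num, Real.log_pow]; norm_num
    have hlog2 := Real.log_two_gt_d9
    have hlb : Real.log b ≤ b := (Real.log_le_sub_one_of_pos hb0).trans (by linarith)
    rw [h8] at h2
    push_cast at h2
    have h9 : 2 * u * L * Real.log b ≤ 2 * u * L * b := mul_le_mul_of_nonneg_left hlb (by positivity)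
    have h10 : 2 * u * L * b ≤ (4 * u * b * L) * Real.log 2 := by
      have : 0 ≤ u * L * b := by positivity
      nlinarith
    have h11 : (2 : ℝ) ^ J * Real.log 2 ≤ (C3 * L) * Real.log 2 := by
      rw [hC3]
      nlinarith
    exact le_of_mul_le_mul_right h11 (by linarith)
  have hVlow : 1 / (Z : ℝ) * (Real.exp (-((κ : ℝ) ^ 2)) / (C2 * C3 * L) ^ κ) ≤ V := by
    rw [hV, hunion, prod_union hdisj]
    apply mul_le_mul
    · obtain ⟨Z1, hZ1⟩ : ∃ Z1 : ℕ, Z1 = ∏ l ∈ T0, l := ⟨_, rfl⟩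
      have hTp : ∀ l ∈ T0, l.Prime ∧ l ≤ z0 ∧ ¬ l ∣ 2 * b := by
        intro l hl
        rw [hT0, mem_filter] at hl
        have := hPR l hl.1
        exact ⟨this.1, hl.2, this.2.2⟩
      have hZ1pos : 0 < Z1 := by rw [hZ1]; exact prod_pos fun l hl => (hTp l hl).1.pos
      have hZ1Z : Z1 ≤ Z := by
        rw [hZ1, hZ]
        apply prod_le_prod_of_subset_of_one_le'
        · intro l hl
          have h1 := hTp l hl
          rw [mem_filter, mem_Icc]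
          exact ⟨⟨h1.1.one_le, h1.2.1⟩, h1.1⟩
        · intro l hl _
          exact (mem_filter.1 hl).2.one_le
      calc 1 / (Z : ℝ) ≤ 1 / (Z1 : ℝ) := by
            apply one_div_le_one_div_of_le (by exact_mod_cast hZ1pos)
            exact_mod_cast hZ1Z
        _ = ∏ l ∈ T0, (1 / (l : ℝ)) := by
            rw [hZ1, prod_div_distrib, prod_const_one]
            push_cast
            rfl
        _ ≤ _ := by
            apply Finset.prod_le_prod (fun l _ => by positivity)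
            intro l hl
            have h1 := hTp l hl
            have h2 := (hQ l h1.1 h1.2.2).2
            have hl0 : (0 : ℝ) < l := by exact_mod_cast h1.1.pos
            have h3 : ((nuB Q l : ℕ) : ℝ) + 1 ≤ l := by exact_mod_cast h2
            have e : 1 - (nuB Q l : ℝ) / l = (l - nuB Q l) / l := by field_simp
            rw [e]
            apply div_le_div_of_nonneg_right _ hl0.le
            linarith
    · refine le_trans ?_ (prod_sharp κ (C2 * 2 ^ J) (by positivity) P (fun p hp => by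
        have := hPp p hp
        exact ⟨this.1.two_le, by omega⟩) (fun l => (nuB Q l : ℝ) / l) (fun p hp => by
          have h1 := hPp p hp
          have h2 := (hQ p h1.1 h1.2.2.2).1
          apply div_le_div_of_nonneg_right _ (Nat.cast_nonneg _)
          exact_mod_cast h2) hrecP)
      apply div_le_div_of_nonneg_left (Real.exp_pos _).le (by positivity)
      apply pow_le_pow_left₀ (by positivity)
      have := mul_le_mul_of_nonneg_left h2J (show (0 : ℝ) ≤ C2 by linarith)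
      linarith
    · positivity
    · apply prod_nonneg
      intro l hl
      have h1 := (mem_filter.1 (hT0 ▸ hl)).1
      have h2 := hPR l h1
      have h3 := (hQ l h2.1 h2.2.2).2
      have hl0 : (0 : ℝ) < l := by exact_mod_cast h2.1.pos
      have : (nuB Q l : ℝ) / l ≤ 1 := by
        rw [div_le_one hl0]
        exact_mod_cast h3.le
      linarith
  calc c * (b : ℝ) ^ L / (M * (L : ℝ) ^ κ)
      = 1 / 2 * ((b : ℝ) ^ L / M * (1 / (Z : ℝ) * (Real.exp (-((κ : ℝ) ^ 2)) / (C2 * C3 * L) ^ κ))) := by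
        rw [hc, mul_pow (C2 * C3) (L : ℝ) κ]
        field_simp
    _ ≤ 1 / 2 * ((b : ℝ) ^ L / M * V) := by gcongr
    _ ≤ _ := by linarith

end Pool.Agent.X37.PL
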