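import Pool.Agent.X37.PL.Low

/-!
# Nested palindromes: adding equal digits on both sides
-/

set_option autoImplicit false

namespace Pool.Agent.X37.PL

open Finset Pool.Agent.Y816.PS
open Pool.Agent.H373R2.T7 (nuB)

/-- the number whose base-`b` digits are `j` digits `d`, the digits of `n` and again `j` digits `d` -/
def wrap (b d j n : ℕ) : ℕ := Nat.ofDigits b (List.replicate j d ++ Nat.digits b n ++ List.replicate j d)

/-- `d d … d` -/
def Rp (b d j : ℕ) : ℕ := Nat.ofDigits b (List.replicate j d)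

lemma Rp_succ (b d j : ℕ) : Rp b d (j + 1) = d + b * Rp b d j := by
  unfold Rp
  rw [List.replicate_succ, Nat.ofDigits_cons]

lemma Rp_mul (b d j : ℕ) : Rp b d j * b + d = Rp b d j + d * b ^ j := by
  induction j with
  | zero => simp [Rp]
  | succ j ih =>
    rw [Rp_succ, pow_succ]
    have : (d + b * Rp b d j) * b + d = (Rp b d j * b + d) * b + d := by ring
    rw [this, ih]
    ring

lemma wrap_eq {b d j n D : ℕ} (h : (Nat.digits b n).length = D) :
    wrap b d j n = b ^ j * n + Rp b d j * (b ^ (D + j) + 1) := by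
  unfold wrap
  rw [Nat.ofDigits_append, Nat.ofDigits_append, Nat.ofDigits_digits]
  simp only [List.length_append, List.length_replicate, h]
  unfold Rp
  rw [show j + D = D + j by ring]
  ring

lemma len_digits {b N n : ℕ} (hb : 2 ≤ b) (h1 : b ^ (2 * N) ≤ n) (h2 : n < b ^ (2 * N + 1)) :
    (Nat.digits b n).length = 2 * N + 1 := by
  have h0 : 0 < n := lt_of_lt_of_le (by positivity) h1
  rw [Nat.length_digits b n (by omega) (by omega)]
  have : Nat.log b n = 2 * N := by
    rw [Nat.log_eq_iff (Or.inr ⟨by omega, by omega⟩)]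
    exact ⟨h1, h2⟩
  omega

lemma wrap_digits {b d j n : ℕ} (hb : 2 ≤ b) (hd : d < b) (hd0 : 0 < d) (hn : n ≠ 0) :
    Nat.digits b (wrap b d j n) = List.replicate j d ++ Nat.digits b n ++ List.replicate j d := by
  unfold wrap
  apply Nat.digits_ofDigits b (by omega)
  · intro l hl
    rw [List.mem_append, List.mem_append] at hl
    rcases hl with (hl | hl) | hl
    · rw [List.eq_of_mem_replicate hl]; exact hd
    · exact Nat.digits_lt_base (by omega) hl
    · rw [List.eq_of_mem_replicate hl]; exact hd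
  · intro h
    rcases j.eq_zero_or_pos with rfl | hj
    · simp only [List.replicate_zero, List.nil_append, List.append_nil] at h ⊢
      exact Nat.getLast_digit_ne_zero b hn
    · have hne : List.replicate j d ≠ [] := by simp; omega
      rw [List.getLast_append_of_ne_nil _ hne, List.getLast_replicate]
      omega

lemma wrap_pal {b d j n : ℕ} (hb : 2 ≤ b) (hd : d < b) (hd0 : 0 < d) (hn : n ≠ 0)
    (hp : (Nat.digits b n).reverse = Nat.digits b n) :
    (Nat.digits b (wrap b d j n)).reverse = Nat.digits b (wrap b d j n) := by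
  rw [wrap_digits hb hd hd0 hn]
  simp [hp]

lemma wrap_lt {b d j n D : ℕ} (hb : 2 ≤ b) (hd : d < b) (hD : (Nat.digits b n).length = D) :
    wrap b d j n < b ^ (D + 2 * j) := by
  unfold wrap
  have h := Nat.ofDigits_lt_base_pow_length (b := b) (l := List.replicate j d ++ Nat.digits b n ++ List.replicate j d)
    (by omega) (by
      intro l hl
      rw [List.mem_append, List.mem_append] at hl
      rcases hl with (hl | hl) | hl
      · rw [List.eq_of_mem_replicate hl]; exact hd
      · exact Nat.digits_lt_base (by omega) hl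
      · rw [List.eq_of_mem_replicate hl]; exact hd)
  refine h.trans_le (Nat.pow_le_pow_right (by omega) ?_)
  simp only [List.length_append, List.length_replicate, hD]
  omega

/-- the sieve conditions -/
def QW (b d k N p n : ℕ) : Prop := ∃ j ≤ k, p ∣ b ^ j * n + Rp b d j * (b ^ (2 * N + 1 + j) + 1)

lemma QW_per (b d k N p n : ℕ) : QW b d k N p n ↔ QW b d k N p (n % p) := by
  unfold QW
  have h : ∀ j, p ∣ b ^ j * n + Rp b d j * (b ^ (2 * N + 1 + j) + 1) ↔
      p ∣ b ^ j * (n % p) + Rp b d j * (b ^ (2 * N + 1 + j) + 1) := by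
    intro j
    have e : b ^ j * n + Rp b d j * (b ^ (2 * N + 1 + j) + 1) ≡
        b ^ j * (n % p) + Rp b d j * (b ^ (2 * N + 1 + j) + 1) [MOD p] :=
      Nat.ModEq.add_right _ (Nat.ModEq.mul_left _ (Nat.mod_modEq n p).symm)
    exact e.dvd_iff (dvd_refl p)
  simp only [h]

/-- the class as a function of `b ^ j` -/
noncomputable def cl (b d N p : ℕ) (B : ZMod p) : ZMod p :=
  -((d : ZMod p) * (B - 1) * ((b : ZMod p) - 1)⁻¹ * ((b : ZMod p) ^ (2 * N + 1) * B + 1)) * B⁻¹

lemma cl_eq {b d k N p : ℕ} [Fact p.Prime] (hb : 2 ≤ b) (hpb : ¬ p ∣ b) (hd : p ∣ b - 1 → p ∣ d) {r : ℕ} {j : ℕ}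
    (h : p ∣ b ^ j * r + Rp b d j * (b ^ (2 * N + 1 + j) + 1)) : (r : ZMod p) = cl b d N p ((b : ZMod p) ^ j) := by
  have hb0 : (b : ZMod p) ≠ 0 := by
    intro h0
    exact hpb ((ZMod.natCast_eq_zero_iff _ _).1 h0)
  have hbj : (b : ZMod p) ^ j ≠ 0 := pow_ne_zero _ hb0
  have h1 := (ZMod.natCast_eq_zero_iff _ _).2 h
  push_cast at h1
  have hR : (Rp b d j : ZMod p) = (d : ZMod p) * ((b : ZMod p) ^ j - 1) * ((b : ZMod p) - 1)⁻¹ := by
    have h2 : (Rp b d j : ZMod p) * b + d = Rp b d j + d * (b : ZMod p) ^ j := by exact_mod_cast congrArg (Nat.cast (R := ZMod p)) (Rp_mul b d j)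
    by_cases hb1 : (b : ZMod p) - 1 = 0
    · have h3 : (p : ℕ) ∣ b - 1 := by
        rw [← ZMod.natCast_eq_zero_iff, Nat.cast_sub (by omega)]
        simpa using hb1
      have h4 : (d : ZMod p) = 0 := (ZMod.natCast_eq_zero_iff _ _).2 (hd h3)
      have h5 : ∀ i, (Rp b d i : ZMod p) = 0 := by
        intro i
        induction i with
        | zero => simp [Rp]
        | succ i ih => rw [Rp_succ]; push_cast; rw [ih, h4]; simp
      rw [h5, h4]; simp
    · rw [eq_mul_inv_iff_mul_eq₀ hb1]
      linear_combination h2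
  unfold cl
  rw [eq_mul_inv_iff_mul_eq₀ hbj, ← hR]
  rw [pow_add] at h1
  linear_combination h1

lemma nu_QW {b d k N p : ℕ} (hp : p.Prime) (hb : 2 ≤ b) (hpb : ¬ p ∣ b) (hd : p ∣ b - 1 → p ∣ d) :
    nuB (QW b d k N) p ≤ k + 1 ∧ nuB (QW b d k N) p < p := by
  classical
  have : Fact p.Prime := ⟨hp⟩
  have hb0 : (b : ZMod p) ≠ 0 := by
    intro h0
    exact hpb ((ZMod.natCast_eq_zero_iff _ _).1 h0)
  have h1 : nuB (QW b d k N) p = ((range p).filter (fun r => QW b d k N p r)).card := by
    unfold nuB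
    congr
  rw [h1]
  have hinj : Set.InjOn (fun r : ℕ => (r : ZMod p)) (((range p).filter (fun r => QW b d k N p r) : Finset ℕ) : Set ℕ) := by
    intro r hr r' hr' hrr
    have h2 := mem_range.1 (mem_filter.1 hr).1
    have h3 := mem_range.1 (mem_filter.1 hr').1
    have h4 := (ZMod.natCast_eq_natCast_iff _ _ _).1 hrr
    exact Nat.ModEq.eq_of_lt_of_lt h4 h2 h3
  rw [← card_image_of_injOn hinj]
  constructor
  · have h2 : ((range p).filter (fun r => QW b d k N p r)).image (fun r : ℕ => (r : ZMod p)) ⊆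
        (range (k + 1)).image (fun j => cl b d N p ((b : ZMod p) ^ j)) := by
      intro y hy
      rw [mem_image] at hy
      obtain ⟨r, hr, rfl⟩ := hy
      obtain ⟨j, hj, h⟩ := (mem_filter.1 hr).2
      rw [mem_image]
      exact ⟨j, mem_range.2 (by omega), (cl_eq (k := k) hb hpb hd h).symm⟩
    refine (card_le_card h2).trans (card_image_le.trans ?_)
    rw [card_range]
  · have h2 : ((range p).filter (fun r => QW b d k N p r)).image (fun r : ℕ => (r : ZMod p)) ⊆
        ((univ : Finset (ZMod p)).erase 0).image (cl b d N p) := by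
      intro y hy
      rw [mem_image] at hy
      obtain ⟨r, hr, rfl⟩ := hy
      obtain ⟨j, hj, h⟩ := (mem_filter.1 hr).2
      rw [mem_image]
      exact ⟨(b : ZMod p) ^ j, mem_erase.2 ⟨pow_ne_zero _ hb0, mem_univ _⟩, (cl_eq (k := k) hb hpb hd h).symm⟩
    refine lt_of_le_of_lt ((card_le_card h2).trans card_image_le) ?_
    rw [card_erase_of_mem (mem_univ _), card_univ, ZMod.card]
    have := hp.two_le
    omega

lemma few_le {b D m : ℕ} {t : ℝ} (hb : 2 ≤ b) (hm : m ≠ 0) (h2 : m < b ^ D)
    (hp : ∀ p : ℕ, p.Prime → p ∣ m → (b : ℝ) ^ t < p) : (m.primeFactorsList.length : ℝ) * t < D := by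
  have hbR : (2 : ℝ) ≤ b := by exact_mod_cast hb
  have h3 : ∀ l : List ℕ, (∀ p ∈ l, (b : ℝ) ^ t < p) → ((b : ℝ) ^ t) ^ l.length ≤ (l.prod : ℕ) := by
    intro l
    induction l with
    | nil => intro _; simp
    | cons p l ih =>
      intro h
      rw [List.length_cons, List.prod_cons, pow_succ, Nat.cast_mul, mul_comm]
      exact mul_le_mul (h p (by simp)).le (ih fun q hq => h q (by simp [hq])) (by positivity) (by positivity)
  have h4 := h3 _ (fun p hp' => hp p (Nat.prime_of_mem_primeFactorsList hp') (Nat.dvd_of_mem_primeFactorsList hp'))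
  rw [Nat.prod_primeFactorsList hm, ← Real.rpow_natCast, ← Real.rpow_mul (by linarith)] at h4
  have h5 : (m : ℝ) < (b : ℝ) ^ (D : ℝ) := by
    rw [Real.rpow_natCast]
    exact_mod_cast h2
  have h6 := (Real.rpow_lt_rpow_left_iff (by linarith : (1 : ℝ) < b)).1 (h4.trans_lt h5)
  linarith

open Classical in
/-- **pyramids of palindromes with few prime factors** -/
theorem pyramids {b d : ℕ} (hb : 2 ≤ b) (hd : d < b) (hdb : d.Coprime b)
    (hd1 : ∀ p : ℕ, p.Prime → p ∣ b - 1 → p ∣ d) (k : ℕ) :
    ∃ u c : ℝ, 0 < u ∧ 0 < c ∧ ∃ L0 : ℕ, ∀ L N x e : ℕ, L0 ≤ L → L < N → b ^ (2 * N) ≤ x →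
      x < b ^ (2 * N + 1) → (x / b ^ (2 * N)).Coprime b → e < b → (Even b ∨ Odd e) →
        c * (b : ℝ) ^ L / (L : ℝ) ^ (k + 1) ≤
        (((range (b ^ (2 * N + 1))).filter (fun n => b ^ (2 * N) ≤ n ∧
          (Nat.digits b n).reverse = Nat.digits b n ∧ n / b ^ (N + L + 1) = x / b ^ (N + L + 1) ∧
          n / b ^ N % b = e ∧
          ∀ j ≤ k, (Nat.digits b (wrap b d j n)).reverse = Nat.digits b (wrap b d j n) ∧
            (∀ p : ℕ, p.Prime → p ∣ wrap b d j n → (b : ℝ) ^ (u * L) < p) ∧
            ((wrap b d j n).primeFactorsList.length : ℝ) * (u * L) < 2 * N + 1 + 2 * j)).card : ℝ) := by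
  obtain ⟨u, c, c₁, hu, hc, hc₁, L0, h⟩ := low hb (k + 1)
  refine ⟨u, c, hu, hc, L0, ?_⟩
  intro L N x e hL hN h1 h2 hx he hpar
  have hd0 : 0 < d := by
    rcases d.eq_zero_or_pos with h | h
    · rw [h, Nat.coprime_zero_left] at hdb
      omega
    · exact h
  have h3 := h L N x e hL hN h1 h2 he 1 0 one_pos (Nat.coprime_one_left _) (by
    rw [Nat.cast_one]
    exact Real.one_le_exp (by positivity)) (QW b d k N) (fun p n => QW_per b d k N p n) (fun p hp hpb =>
      nu_QW hp hb (fun h' => hpb (h'.mul_left 2)) (fun h' => hd1 p hp h'))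
  rw [Nat.cast_one, one_mul] at h3
  refine h3.trans ?_
  norm_cast
  apply card_le_card
  intro n hn
  rw [mem_filter] at hn
  obtain ⟨hn1, -, hn3⟩ := hn
  have hn1' := hn1
  rw [PalS_eq hb (by omega) h1 h2 he] at hn1'
  unfold PalS at hn1
  rw [mem_filter, mem_range] at hn1
  obtain ⟨g1, g2, g3, g4, g5⟩ := hn1
  rw [mem_filter, mem_range]
  refine ⟨g1, g2, g3, g4, g5, ?_⟩
  intro j hj
  have hn0 : n ≠ 0 := by
    have : 0 < b ^ (2 * N) := by positivity
    omega
  have hlen := len_digits hb g2 g1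
  have hw := wrap_eq (d := d) (j := j) hlen
  have hcop : n.Coprime (2 * b) := by
    obtain ⟨m, -, rfl⟩ := mem_image.1 hn1'
    have h4 := VE_add b N L x e m
    have h5 := VV_cop hb (by omega) h2 hx m
    rw [Nat.coprime_iff_gcd_eq_one, Nat.eq_one_iff_not_exists_prime_dvd] at h5 ⊢
    intro p hp hdv
    apply h5 p hp
    have g6 := hdv.trans (Nat.gcd_dvd_left _ _)
    have g7 := hdv.trans (Nat.gcd_dvd_right _ _)
    refine Nat.dvd_gcd ?_ g7
    by_cases hpb : p ∣ b
    · have g8 : p ∣ b ^ N := dvd_pow hpb (by omega)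
      have g9 : p ∣ VE b N L x e m + b ^ N := dvd_add g6 g8
      rw [h4] at g9
      exact (Nat.dvd_add_left (g8.mul_left e)).1 g9
    · have hp2 : p = 2 := by
        rcases (Nat.Prime.dvd_mul hp).1 g7 with h | h
        · exact (Nat.prime_dvd_prime_iff_eq hp Nat.prime_two).1 h
        · exact absurd h hpb
      subst hp2
      have ho : Odd b := by
        rw [← Nat.not_even_iff_odd, even_iff_two_dvd]
        exact hpb
      have hoe : Odd e := by
        rcases hpar with h | h
        · exact absurd h (by rw [Nat.not_even_iff_odd]; exact ho)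
        · exact h
      have g8 : Odd (b ^ N) := ho.pow
      have g9 : Odd (VE b N L x e m + b ^ N) := (even_iff_two_dvd.2 g6).add_odd g8
      rw [h4] at g9
      by_contra hcon
      have g10 : Odd (VV b N L x m) := by
        rw [← Nat.not_even_iff_odd, even_iff_two_dvd]
        exact hcon
      have g11 : Even (VV b N L x m + e * b ^ N) := g10.add_odd (hoe.mul g8)
      rw [← Nat.not_even_iff_odd] at g9
      exact g9 g11
  have hpr : ∀ p : ℕ, p.Prime → p ∣ wrap b d j n → (b : ℝ) ^ (u * L) < p := by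
    intro p hp hpw
    rw [hw] at hpw
    by_contra hcon
    push Not at hcon
    have hpn : ¬ (p ∣ n ∧ p ∣ 2 * b) := by
      rintro ⟨g6, g7⟩
      exact hp.one_lt.ne' (Nat.Coprime.eq_one_of_dvd (hcop.coprime_dvd_left g6) g7)
    by_cases hpb : p ∣ 2 * b
    · rcases (Nat.Prime.dvd_mul hp).1 hpb with hp2 | hpb'
      · -- `p = 2`
        have hp2' := (Nat.prime_dvd_prime_iff_eq hp Nat.prime_two).1 hp2
        subst hp2'
        by_cases hb2 : 2 ∣ b
        · rcases j.eq_zero_or_pos with rfl | hj0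
          · apply hpn
            refine ⟨?_, hpb⟩
            simpa [Rp] using hpw
          · obtain ⟨i, rfl⟩ : ∃ i, j = i + 1 := ⟨j - 1, by omega⟩
            have g8 : 2 ∣ b ^ (i + 1) * n := (dvd_pow hb2 (by omega)).mul_right _
            have g9 := (Nat.dvd_add_right g8).1 hpw
            rcases (Nat.Prime.dvd_mul hp).1 g9 with g10 | g10
            · rw [Rp_succ] at g10
              have g11 := (Nat.dvd_add_left (hb2.mul_right _)).1 g10
              exact hp.one_lt.ne' (Nat.Coprime.eq_one_of_dvd (hdb.coprime_dvd_left g11) hb2)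
            · have g12 : 2 ∣ b ^ (2 * N + 1 + (i + 1)) := dvd_pow hb2 (by omega)
              have := (Nat.dvd_add_right g12).1 g10
              omega
        · have ho : Odd b := by
            rw [← Nat.not_even_iff_odd, even_iff_two_dvd]
            exact hb2
          have hno : Odd n := by
            rw [← Nat.not_even_iff_odd, even_iff_two_dvd]
            intro g
            exact hpn ⟨g, hpb⟩
          have g8 : Odd (b ^ j * n + Rp b d j * (b ^ (2 * N + 1 + j) + 1)) :=
            (ho.pow.mul hno).add_even ((ho.pow.add_odd odd_one).mul_left _)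
          rw [← Nat.not_even_iff_odd, even_iff_two_dvd] at g8
          exact g8 hpw
      · rcases j.eq_zero_or_pos with rfl | hj0
        · apply hpn
          refine ⟨?_, hpb⟩
          simpa [Rp] using hpw
        · obtain ⟨i, rfl⟩ : ∃ i, j = i + 1 := ⟨j - 1, by omega⟩
          have g8 : p ∣ b ^ (i + 1) * n := (dvd_pow hpb' (by omega)).mul_right _
          have g9 := (Nat.dvd_add_right g8).1 hpw
          rcases (Nat.Prime.dvd_mul hp).1 g9 with g10 | g10
          · rw [Rp_succ] at g10
            have g11 := (Nat.dvd_add_left (hpb'.mul_right _)).1 g10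
            exact hp.one_lt.ne' (Nat.Coprime.eq_one_of_dvd (hdb.coprime_dvd_left g11) hpb')
          · have g12 : p ∣ b ^ (2 * N + 1 + (i + 1)) := dvd_pow hpb' (by omega)
            have g13 := (Nat.dvd_add_right g12).1 g10
            have := hp.one_lt
            have := Nat.le_of_dvd one_pos g13
            omega
    · exact hn3 p hp (by rwa [mul_one]) hcon ⟨j, hj, hpw⟩
  refine ⟨wrap_pal hb hd hd0 hn0 g3, hpr, ?_⟩
  have hw0 : wrap b d j n ≠ 0 := by
    rw [hw]
    have : 0 < b ^ j * n := by positivity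
    omega
  have := few_le (t := u * L) hb hw0 (wrap_lt hb hd hlen) hpr
  push_cast at this ⊢
  exact this

end Pool.Agent.X37.PL
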