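import Pool.Agent.X37.PL.Err

/-!
# The sum of the error terms with weights `K ^ ω`
-/

set_option autoImplicit false

namespace Pool.Agent.X37.PL

open Finset Filter Topology Pool.Agent.Helper112 Pool.Agent.W89.PW Pool.Agent.W261.PWBV
open Pool.Agent.Y816.PS (er er_nonneg)

/-- `K ^ |T|` against powers of the product -/
lemma pow_card_le (K : ℕ) (ε : ℝ) (hε : 0 < ε) : ∃ C : ℝ, 1 ≤ C ∧ ∀ T : Finset ℕ, (∀ l ∈ T, l.Prime) →
    (K : ℝ) ^ T.card ≤ C * ((∏ l ∈ T, l : ℕ) : ℝ) ^ ε := by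
  classical
  obtain ⟨m, hm⟩ : ∃ m : ℕ, K ≤ 2 ^ m := ⟨K, Nat.lt_two_pow_self.le⟩
  obtain ⟨C1, hC1, hτ⟩ := divisor_bound (ε / (m + 1)) (by positivity)
  refine ⟨max 1 (C1 ^ m), le_max_left _ _, ?_⟩
  intro T hT
  have hpos : 0 < ∏ l ∈ T, l := prod_pos fun l hl => (hT l hl).pos
  have h1 : (1 : ℝ) ≤ ((∏ l ∈ T, l : ℕ) : ℝ) := by exact_mod_cast hpos
  have h2 := Pool.Agent.Y816.PS.pow_card_le_tau (κ := 4) (M := 1) le_rfl one_pos T hT
  rw [one_mul] at h2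
  have h3 : (2 : ℝ) ^ T.card ≤ ((∏ l ∈ T, l : ℕ).divisors.card : ℝ) := by
    have h4 : ((2 : ℝ) ^ T.card) ^ 2 ≤ ((∏ l ∈ T, l : ℕ).divisors.card : ℝ) ^ 2 := by
      refine le_trans (le_of_eq ?_) h2
      rw [← pow_mul, mul_comm, pow_mul]
      norm_num
    exact le_of_sq_le_sq h4 (by positivity)
  have h5 := hτ _ hpos
  calc (K : ℝ) ^ T.card ≤ ((2 : ℝ) ^ m) ^ T.card := by
        apply pow_le_pow_left₀ (Nat.cast_nonneg _)
        exact_mod_cast hm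
    _ = ((2 : ℝ) ^ T.card) ^ m := by rw [← pow_mul, ← pow_mul, mul_comm]
    _ ≤ (C1 * ((∏ l ∈ T, l : ℕ) : ℝ) ^ (ε / (m + 1))) ^ m :=
        pow_le_pow_left₀ (by positivity) (h3.trans h5) m
    _ = C1 ^ m * ((∏ l ∈ T, l : ℕ) : ℝ) ^ (ε / (m + 1) * m) := by
        rw [mul_pow, ← Real.rpow_natCast (((∏ l ∈ T, l : ℕ) : ℝ) ^ (ε / (m + 1))), ← Real.rpow_mul (by positivity)]
    _ ≤ max 1 (C1 ^ m) * ((∏ l ∈ T, l : ℕ) : ℝ) ^ ε := by
        apply mul_le_mul (le_max_right _ _) _ (by positivity) (by positivity)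
        apply Real.rpow_le_rpow_of_exponent_le h1
        have hm0 : (0 : ℝ) ≤ m := Nat.cast_nonneg m
        rw [div_mul_eq_mul_div, div_le_iff₀ (by positivity)]
        nlinarith

/-- supersets -/
lemma super_sum (P T1 : Finset ℕ) (hT1 : T1 ⊆ P) (f : ℕ → ℝ) (hf : ∀ p ∈ P, 0 ≤ f p) :
    ∑ T ∈ P.powerset.filter (fun T => T1 ⊆ T), ∏ p ∈ T, f p ≤ (∏ p ∈ T1, f p) * ∏ p ∈ P, (1 + f p) := by
  classical
  have h1 : ∑ T ∈ P.powerset.filter (fun T => T1 ⊆ T), ∏ p ∈ T, f p =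
      ∑ T ∈ P.powerset.filter (fun T => T1 ⊆ T), (∏ p ∈ T1, f p) * ∏ p ∈ T \ T1, f p := by
    apply sum_congr rfl
    intro T hT
    rw [mem_filter] at hT
    rw [mul_comm, prod_sdiff hT.2]
  rw [h1, ← mul_sum]
  apply mul_le_mul_of_nonneg_left _ (prod_nonneg fun p hp => hf p (hT1 hp))
  rw [prod_one_add]
  have h2 : ∑ T ∈ P.powerset.filter (fun T => T1 ⊆ T), ∏ p ∈ T \ T1, f p =
      ∑ R ∈ (P.powerset.filter (fun T => T1 ⊆ T)).image (fun T => T \ T1), ∏ p ∈ R, f p := by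
    rw [sum_image]
    intro T hT T' hT' h
    rw [mem_coe, mem_filter] at hT hT'
    simp only at h
    rw [← sdiff_union_of_subset hT.2, h, sdiff_union_of_subset hT'.2]
  rw [h2]
  apply sum_le_sum_of_subset_of_nonneg
  · intro R hR
    rw [mem_image] at hR
    obtain ⟨T, hT, rfl⟩ := hR
    rw [mem_filter, mem_powerset] at hT
    rw [mem_powerset]
    exact sdiff_subset.trans hT.1
  · intro R hR _
    rw [mem_powerset] at hR
    exact prod_nonneg fun p hp => hf p (hR hp)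

/-- the divisors of `M ∏ T` -/
lemma dvd_part (M d : ℕ) (T P : Finset ℕ) (hTP : T ⊆ P) (hP : ∀ p ∈ P, p.Prime ∧ ¬ p ∣ M)
    (h : d ∣ M * ∏ p ∈ T, p) : P.filter (fun p => p ∣ d) ⊆ T ∧ d ∣ M * ∏ p ∈ P.filter (fun p => p ∣ d), p := by
  classical
  have h1 : P.filter (fun p => p ∣ d) ⊆ T := by
    intro p hp
    rw [mem_filter] at hp
    obtain ⟨hpP, hpd⟩ := hp
    obtain ⟨hpp, hpM⟩ := hP p hpP
    rcases hpp.dvd_mul.1 (hpd.trans h) with h2 | h2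
    · exact absurd h2 hpM
    · obtain ⟨q, hq, hpq⟩ := (Nat.prime_iff.1 hpp).exists_mem_finset_dvd h2
      have := (Nat.prime_dvd_prime_iff_eq hpp (hP q (hTP hq)).1).1 hpq
      rw [this]
      exact hq
  refine ⟨h1, ?_⟩
  have h2 : T.filter (fun p => p ∣ d) = P.filter (fun p => p ∣ d) := by
    ext p
    rw [mem_filter, mem_filter]
    constructor
    · rintro ⟨h3, h4⟩; exact ⟨hTP h3, h4⟩
    · rintro ⟨h3, h4⟩; exact ⟨h1 (mem_filter.2 ⟨h3, h4⟩), h4⟩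
  rw [← h2]
  have h3 : ∏ p ∈ T, p = (∏ p ∈ T.filter (fun p => p ∣ d), p) * ∏ p ∈ T.filter (fun p => ¬ p ∣ d), p :=
    (prod_filter_mul_prod_filter_not T _ _).symm
  rw [h3, ← mul_assoc] at h
  refine Nat.Coprime.dvd_of_dvd_mul_right ?_ h
  apply Nat.Coprime.prod_right
  intro p hp
  rw [mem_filter] at hp
  exact ((Nat.Prime.coprime_iff_not_dvd (hP p (hTP hp.1)).1).2 hp.2).symm

/-- **the error terms** -/
theorem err_sum (b : ℕ) (K : ℕ) (hK : 1 ≤ K) (ε : ℝ) (hε : 0 < ε) : ∃ C : ℝ, 1 ≤ C ∧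
    ∀ (L M Y D : ℕ) (P : Finset ℕ), 0 < M → M.Coprime (2 * b) → (∀ p ∈ P, p.Prime ∧ ¬ p ∣ M ∧ ¬ p ∣ 2 * b) →
      M * Y ≤ D →
      ∑ T ∈ P.powerset.filter (fun T : Finset ℕ => ∏ p ∈ T, p ≤ Y), (K : ℝ) ^ T.card * er b L (M * ∏ p ∈ T, p) ≤
        C * (b : ℝ) ^ L * (∏ p ∈ P, (1 + (K : ℝ) / p)) *
          ∑ d ∈ (Icc 2 D).filter (fun q => q.Coprime (2 * b)), (d : ℝ) ^ ε * U b b 1 L d / d := by
  classical
  obtain ⟨C, hC1, hC⟩ := pow_card_le K ε hε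
  refine ⟨C, hC1, ?_⟩
  intro L M Y D P hM hMb hP hMY
  have hMr : (0 : ℝ) < M := by exact_mod_cast hM
  have hprodpos : ∀ T ⊆ P, 0 < ∏ p ∈ T, p := fun T hT => prod_pos fun p hp => (hP p (hT hp)).1.pos
  have hKr : (0 : ℝ) < K := by exact_mod_cast hK
  have hf0 : ∀ p ∈ P, (0 : ℝ) ≤ (K : ℝ) / p := fun p _ => by positivity
  have h1 : ∀ T ∈ P.powerset.filter (fun T : Finset ℕ => ∏ p ∈ T, p ≤ Y),
      (K : ℝ) ^ T.card * er b L (M * ∏ p ∈ T, p) ≤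
      ∑ d ∈ (Icc 2 D).filter (fun q => q.Coprime (2 * b)),
        (if P.filter (fun p => p ∣ d) ⊆ T ∧ d ∣ M * ∏ p ∈ P.filter (fun p => p ∣ d), p then
          (b : ℝ) ^ L / M * (∏ p ∈ T, ((K : ℝ) / p)) * U b b 1 L d else 0) := by
    intro T hT
    rw [mem_filter, mem_powerset] at hT
    obtain ⟨hTP, hTY⟩ := hT
    have hq0 := hprodpos T hTP
    unfold er
    have h2 : (K : ℝ) ^ T.card * ((b : ℝ) ^ L / ((M * ∏ p ∈ T, p : ℕ) : ℝ) *
        ∑ d ∈ (M * ∏ p ∈ T, p).divisors.filter (fun d => 1 < d), U b b 1 L d) =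
        ∑ d ∈ (M * ∏ p ∈ T, p).divisors.filter (fun d => 1 < d),
          (b : ℝ) ^ L / M * (∏ p ∈ T, ((K : ℝ) / p)) * U b b 1 L d := by
      rw [← mul_sum, ← mul_assoc]
      congr 1
      rw [prod_div_distrib, prod_const]
      push_cast
      field_simp
    rw [h2, ← sum_filter]
    apply sum_le_sum_of_subset_of_nonneg
    · intro d hd
      rw [mem_filter, Nat.mem_divisors] at hd
      obtain ⟨⟨hd1, _⟩, hd2⟩ := hd
      have hdle : d ≤ M * ∏ p ∈ T, p := Nat.le_of_dvd (Nat.mul_pos hM hq0) hd1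
      rw [mem_filter, mem_filter, mem_Icc]
      refine ⟨⟨⟨by omega, hdle.trans ((Nat.mul_le_mul_left M hTY).trans hMY)⟩, ?_⟩, ?_⟩
      · apply Nat.Coprime.coprime_dvd_left hd1
        apply Nat.Coprime.mul_left hMb
        apply Nat.Coprime.prod_left
        intro p hp
        exact (Nat.Prime.coprime_iff_not_dvd (hP p (hTP hp)).1).2 (hP p (hTP hp)).2.2
      · exact dvd_part M d T P hTP (fun p hp => ⟨(hP p hp).1, (hP p hp).2.1⟩) hd1
    · intro d _ _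
      have h3 : 0 ≤ ∏ p ∈ T, ((K : ℝ) / p) := prod_nonneg fun p hp => hf0 p (hTP hp)
      have := U_nonneg b b 1 L d
      positivity
  refine (sum_le_sum h1).trans ?_
  rw [sum_comm, mul_sum]
  apply sum_le_sum
  intro d hd
  rw [mem_filter, mem_Icc] at hd
  have hd0 : (0 : ℝ) < d := by exact_mod_cast (show 0 < d by omega)
  have hU := U_nonneg b b 1 L d
  obtain ⟨T1, hT1⟩ : ∃ T1 : Finset ℕ, T1 = P.filter (fun p => p ∣ d) := ⟨_, rfl⟩
  rw [← hT1]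
  have hT1P : T1 ⊆ P := by rw [hT1]; exact filter_subset _ _
  have hPi0 : 0 ≤ ∏ p ∈ P, (1 + (K : ℝ) / p) := prod_nonneg fun p hp => by
    have := hf0 p hp
    linarith
  by_cases hdd : d ∣ M * ∏ p ∈ T1, p
  · -- the sum over the supersets
    have h2 : ∑ T ∈ P.powerset.filter (fun T : Finset ℕ => ∏ p ∈ T, p ≤ Y),
        (if T1 ⊆ T ∧ d ∣ M * ∏ p ∈ T1, p then
          (b : ℝ) ^ L / M * (∏ p ∈ T, ((K : ℝ) / p)) * U b b 1 L d else 0) ≤
        ∑ T ∈ P.powerset.filter (fun T => T1 ⊆ T), (b : ℝ) ^ L / M * (∏ p ∈ T, ((K : ℝ) / p)) * U b b 1 L d := by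
      rw [← sum_filter]
      apply sum_le_sum_of_subset_of_nonneg
      · intro T hT
        rw [mem_filter, mem_filter] at hT
        rw [mem_filter]
        exact ⟨hT.1.1, hT.2.1⟩
      · intro T hT _
        rw [mem_filter, mem_powerset] at hT
        have h3 : 0 ≤ ∏ p ∈ T, ((K : ℝ) / p) := prod_nonneg fun p hp => hf0 p (hT.1 hp)
        positivity
    refine h2.trans ?_
    have h3 : ∑ T ∈ P.powerset.filter (fun T => T1 ⊆ T), (b : ℝ) ^ L / M * (∏ p ∈ T, ((K : ℝ) / p)) * U b b 1 L d =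
        (b : ℝ) ^ L / M * U b b 1 L d * ∑ T ∈ P.powerset.filter (fun T => T1 ⊆ T), ∏ p ∈ T, ((K : ℝ) / p) := by
      rw [mul_sum]
      apply sum_congr rfl
      intro T _
      ring
    rw [h3]
    have h4 := super_sum P T1 hT1P (fun p => (K : ℝ) / p) hf0
    have hT1pos : (0 : ℝ) < ((∏ p ∈ T1, p : ℕ) : ℝ) := by exact_mod_cast hprodpos T1 hT1P
    have h5 : ∏ p ∈ T1, ((K : ℝ) / p) ≤ C * (d : ℝ) ^ ε * (M / d) := by
      have h6 : ∏ p ∈ T1, ((K : ℝ) / p) = (K : ℝ) ^ T1.card * (1 / ((∏ p ∈ T1, p : ℕ) : ℝ)) := by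
        rw [prod_div_distrib, prod_const]
        push_cast
        ring
      rw [h6]
      have h7 : (K : ℝ) ^ T1.card ≤ C * (d : ℝ) ^ ε := by
        refine (hC T1 (fun p hp => (hP p (hT1P hp)).1)).trans ?_
        apply mul_le_mul_of_nonneg_left _ (by linarith)
        apply Real.rpow_le_rpow hT1pos.le _ hε.le
        have h8 : ∏ p ∈ T1, p ∣ d := prod_primes_dvd _ (fun p hp => (hP p (hT1P hp)).1.prime)
          (fun p hp => by rw [hT1, mem_filter] at hp; exact hp.2)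
        exact_mod_cast Nat.le_of_dvd (by omega) h8
      have h9 : 1 / ((∏ p ∈ T1, p : ℕ) : ℝ) ≤ M / d := by
        rw [div_le_div_iff₀ hT1pos hd0, one_mul]
        exact_mod_cast Nat.le_of_dvd (Nat.mul_pos hM (hprodpos T1 hT1P)) hdd
      exact mul_le_mul h7 h9 (by positivity) (by positivity)
    calc (b : ℝ) ^ L / M * U b b 1 L d * ∑ T ∈ P.powerset.filter (fun T => T1 ⊆ T), ∏ p ∈ T, ((K : ℝ) / p)
        ≤ (b : ℝ) ^ L / M * U b b 1 L d * ((C * (d : ℝ) ^ ε * (M / d)) * ∏ p ∈ P, (1 + (K : ℝ) / p)) := by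
          apply mul_le_mul_of_nonneg_left _ (by positivity)
          exact h4.trans (mul_le_mul_of_nonneg_right h5 hPi0)
      _ = _ := by field_simp
  · have h2 : ∑ T ∈ P.powerset.filter (fun T : Finset ℕ => ∏ p ∈ T, p ≤ Y),
        (if T1 ⊆ T ∧ d ∣ M * ∏ p ∈ T1, p then
          (b : ℝ) ^ L / M * (∏ p ∈ T, ((K : ℝ) / p)) * U b b 1 L d else 0) = 0 := by
      apply sum_eq_zero
      intro T _
      rw [if_neg (fun h => hdd h.2)]
    rw [h2]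
    have : (0 : ℝ) ≤ C := by linarith
    positivity

/-- sums of reciprocals of primes, doubly exponential -/
lemma recip_le : ∃ C : ℝ, 1 ≤ C ∧ ∀ J : ℕ, ∀ P : Finset ℕ, (∀ p ∈ P, p.Prime ∧ p < 2 ^ 2 ^ J) →
    Real.exp (∑ p ∈ P, (1 : ℝ) / p) ≤ C * 2 ^ J := by
  obtain ⟨c, _, hc, _, h⟩ := Pool.Agent.Helper112.LP.mertens_prod
  refine ⟨max 1 (1 / c), le_max_left _ _, ?_⟩
  intro J P hP
  have h1 := (h J).1
  have h2 : ∏ l ∈ (range (2 ^ 2 ^ J)).filter Nat.Prime, (1 - (1 : ℝ) / l) ≤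
      Real.exp (-∑ l ∈ (range (2 ^ 2 ^ J)).filter Nat.Prime, (1 : ℝ) / l) := by
    rw [← sum_neg_distrib, Real.exp_sum]
    apply Finset.prod_le_prod
    · intro l hl
      rw [mem_filter] at hl
      have h3 : (2 : ℝ) ≤ l := by exact_mod_cast hl.2.two_le
      have : (1 : ℝ) / l ≤ 1 := by rw [div_le_one (by linarith)]; linarith
      linarith
    · intro l _
      have := Real.add_one_le_exp (-((1 : ℝ) / l))
      linarith
  have h3 : ∑ p ∈ P, (1 : ℝ) / p ≤ ∑ l ∈ (range (2 ^ 2 ^ J)).filter Nat.Prime, (1 : ℝ) / l := by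
    apply sum_le_sum_of_subset_of_nonneg
    · intro p hp
      rw [mem_filter, mem_range]
      exact ⟨(hP p hp).2, (hP p hp).1⟩
    · intro p _ _
      positivity
  have h4 := h1.trans h2
  rw [Real.exp_neg, div_le_iff₀ (by positivity)] at h4
  have h5 := Real.exp_pos (∑ l ∈ (range (2 ^ 2 ^ J)).filter Nat.Prime, (1 : ℝ) / l)
  have h6 : Real.exp (∑ l ∈ (range (2 ^ 2 ^ J)).filter Nat.Prime, (1 : ℝ) / l) ≤ 1 / c * 2 ^ J := by
    rw [one_div, inv_mul_eq_div, le_div_iff₀ hc]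
    have h7 := mul_le_mul_of_nonneg_right h4 h5.le
    have h8 : (Real.exp (∑ l ∈ (range (2 ^ 2 ^ J)).filter Nat.Prime, (1 : ℝ) / l))⁻¹ * 2 ^ J *
        Real.exp (∑ l ∈ (range (2 ^ 2 ^ J)).filter Nat.Prime, (1 : ℝ) / l) = 2 ^ J := by
      field_simp
    rw [h8] at h7
    linarith
  calc Real.exp (∑ p ∈ P, (1 : ℝ) / p) ≤ _ := Real.exp_le_exp.2 h3
    _ ≤ 1 / c * 2 ^ J := h6
    _ ≤ max 1 (1 / c) * 2 ^ J := mul_le_mul_of_nonneg_right (le_max_right _ _) (by positivity)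

end Pool.Agent.X37.PL
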